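import Pool.Agent.H97.PP.ElimR

/-!
# Counting lemmas
-/

set_option autoImplicit false

namespace Pool.Agent.H97.PP

open MvPolynomial

open Classical in
/-- Counting by fibres over the coordinates outside the image of `ι`. -/
theorem fibre_count {A κ Y : Type} [Fintype A] [Fintype κ] [DecidableEq A] [DecidableEq κ]
    (ι : κ → A)
    (hι : Function.Injective ι) (S : A → Finset Y) (G P : (A → Y) → Prop)
    (hG : ∀ c e, G c → G (Function.extend ι e c)) (B : ℕ)
    (hB : ∀ c ∈ Fintype.piFinset S, G c →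
      ((Fintype.piFinset fun o => S (ι o)).filter fun e => P (Function.extend ι e c)).card ≤ B) :
    ((Fintype.piFinset S).filter fun c => G c ∧ P c).card * ∏ o, (S (ι o)).card ≤
      ((Fintype.piFinset S).filter fun c => G c).card * B := by
  have h1 : ((Fintype.piFinset S).filter fun c => G c ∧ P c).card * ∏ o, (S (ι o)).card =
      (((Fintype.piFinset S).filter fun c => G c ∧ P c) ×ˢ
        (Fintype.piFinset fun o => S (ι o))).card := by
    rw [Finset.card_product, Fintype.card_piFinset]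
  rw [h1]
  have h2 : (((Fintype.piFinset S).filter fun c => G c).sigma fun c =>
      (Fintype.piFinset fun o => S (ι o)).filter fun e => P (Function.extend ι e c)).card ≤
      ((Fintype.piFinset S).filter fun c => G c).card * B := by
    rw [Finset.card_sigma, ← smul_eq_mul]
    exact Finset.sum_le_card_nsmul _ _ _ fun c hc => by
      rw [Finset.mem_filter] at hc
      exact hB c hc.1 hc.2
  refine le_trans ?_ h2
  refine Finset.card_le_card_of_injOn
    (fun x => (⟨Function.extend ι x.2 x.1, fun o => x.1 (ι o)⟩ :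
      Σ _ : (A → Y), (κ → Y))) ?_ ?_
  · rintro ⟨c, e⟩ hx
    simp only [Finset.coe_product, Set.mem_prod, Finset.mem_coe, Finset.mem_filter,
      Fintype.mem_piFinset] at hx
    obtain ⟨⟨hc, hGc, hPc⟩, he⟩ := hx
    simp only [Finset.coe_sigma, Set.mem_sigma_iff, Finset.mem_coe, Finset.mem_filter,
      Fintype.mem_piFinset]
    refine ⟨⟨fun α => ?_, hG c e hGc⟩, fun o => hc (ι o), ?_⟩
    · by_cases h : ∃ o, ι o = α
      · obtain ⟨o, rfl⟩ := h
        rw [hι.extend_apply]
        exact he o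
      · rw [Function.extend_apply' _ _ _ h]
        exact hc α
    · have : Function.extend ι (fun o => c (ι o)) (Function.extend ι e c) = c := by
        funext α
        by_cases h : ∃ o, ι o = α
        · obtain ⟨o, rfl⟩ := h
          rw [hι.extend_apply]
        · rw [Function.extend_apply' _ _ _ h, Function.extend_apply' _ _ _ h]
      rw [this]
      exact hPc
  · rintro ⟨c, e⟩ _ ⟨c', e'⟩ _ h
    simp only [Sigma.mk.injEq, heq_eq_eq] at h
    obtain ⟨h1, h2⟩ := h
    have he : e = e' := by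
      funext o
      have := congrFun h1 (ι o)
      rwa [hι.extend_apply, hι.extend_apply] at this
    have hc : c = c' := by
      funext α
      by_cases h : ∃ o, ι o = α
      · obtain ⟨o, rfl⟩ := h
        exact congrFun h2 o
      · have := congrFun h1 α
        rwa [Function.extend_apply' _ _ _ h, Function.extend_apply' _ _ _ h] at this
    rw [he, hc]

open Classical in
/-- Schwartz-Zippel for a finite type of variables and sets of equal size. -/
theorem sz {A R : Type} [Fintype A] [DecidableEq A] [CommRing R] [IsDomain R] (p : MvPolynomial A R) (hp : p ≠ 0)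
    (S : A → Finset R) (s : ℕ) (hS : ∀ α, (S α).card = s) :
    ((Fintype.piFinset S).filter fun c => eval c p = 0).card * s ≤
      p.totalDegree * s ^ Fintype.card A := by
  rcases Nat.eq_zero_or_pos s with h0 | hs
  · subst h0; simp
  let e : A ≃ Fin (Fintype.card A) := Fintype.equivFin A
  let q := rename e p
  have hq : q ≠ 0 := by
    intro h
    exact hp (rename_injective e e.injective (by rw [map_zero]; exact h))
  have h1 := schwartz_zippel_sup_sum (R := R) hq (fun i => S (e.symm i))
  simp only [hS] at h1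
  have h2 : (q.support.sup fun m => ∑ i, ((m i : ℚ≥0) / (s : ℚ≥0))) = (p.totalDegree : ℚ≥0) / s := by
    have h3 : q.totalDegree = p.totalDegree := totalDegree_renameEquiv e p
    rw [← h3, totalDegree, Nat.cast_finsetSup, Finset.sup_div₀ (by positivity)]
    refine Finset.sup_congr rfl fun m _ => ?_
    rw [← Finset.sum_div, Finsupp.sum_fintype _ _ (fun _ => rfl)]
    simp
  rw [h2, Finset.prod_const, Finset.card_univ, Fintype.card_fin] at h1
  have h4 : ((Fintype.piFinset S).filter fun c => eval c p = 0).card ≤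
      ((Fintype.piFinset fun i => S (e.symm i)).filter fun x => eval x q = 0).card := by
    refine Finset.card_le_card_of_injOn (fun c i => c (e.symm i)) ?_ ?_
    · intro c hc
      simp only [Finset.coe_filter, Set.mem_ofPred_eq, Fintype.mem_piFinset] at hc ⊢
      refine ⟨fun i => hc.1 _, ?_⟩
      have : eval (fun i => c (e.symm i)) (rename e p) = eval c p := by
        rw [eval_rename]
        congr 2
        funext α
        simp
      exact this.trans hc.2
    · intro c _ c' _ h
      funext α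
      have := congrFun h (e α)
      simpa using this
  have h5 : ((((Fintype.piFinset S).filter fun c => eval c p = 0).card : ℚ≥0)) / s ^ (Fintype.card A) ≤
      (p.totalDegree : ℚ≥0) / s := by
    refine le_trans ?_ h1
    gcongr
  rw [div_le_div_iff₀ (by positivity) (by positivity)] at h5
  exact_mod_cast h5

theorem sz_le {A R : Type} [Fintype A] [DecidableEq A] [CommRing R] [IsDomain R]
    (p : MvPolynomial A R) (hp : p ≠ 0)
    (S : A → Finset R) (s : ℕ) (hS : ∀ α, (S α).card = s) (T : Finset (A → R))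
    (hT : T ⊆ Fintype.piFinset S) (hT0 : ∀ c ∈ T, eval c p = 0) :
    T.card * s ≤ p.totalDegree * s ^ Fintype.card A := by
  classical
  refine le_trans (Nat.mul_le_mul_right _ (Finset.card_le_card ?_)) (sz p hp S s hS)
  intro c hc
  exact Finset.mem_filter.mpr ⟨hT hc, hT0 c hc⟩

/-- Few large primes divide a number. -/
theorem card_primes_le (X : ℤ) (hX : X ≠ 0) (s e : ℕ) (hXs : |X| < (s : ℤ) ^ (e + 1))
    (T : Finset ℕ) (hT : ∀ p ∈ T, p.Prime ∧ s < p ∧ (p : ℤ) ∣ X) : T.card ≤ e := by
  have h1 : (∏ p ∈ T, p) ∣ X.natAbs := by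
    refine Finset.prod_primes_dvd _ (fun p hp => (hT p hp).1.prime) fun p hp => ?_
    exact Int.natCast_dvd.mp (hT p hp).2.2
  have h2 : (∏ p ∈ T, p) ≤ X.natAbs := Nat.le_of_dvd (Int.natAbs_pos.mpr hX) h1
  have h3 : s ^ T.card ≤ ∏ p ∈ T, p := by
    rw [← Finset.prod_const]
    exact Finset.prod_le_prod' fun p hp => (hT p hp).2.1.le
  by_contra hcon
  push Not at hcon
  have h4 : (X.natAbs : ℤ) < (s : ℤ) ^ (e + 1) := by rwa [Int.natCast_natAbs]
  have h5 : X.natAbs < s ^ (e + 1) := by exact_mod_cast h4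
  have hs : 0 < s := by
    by_contra h0
    have : s = 0 := by omega
    rw [this] at h5
    simp at h5
  have h6 : s ^ (e + 1) ≤ s ^ T.card := Nat.pow_le_pow_right hs hcon
  omega

/-- Size of the values of a polynomial. -/
theorem abs_eval_le {A : Type} (L : MvPolynomial A ℤ) (c : A → ℤ) (Y : ℤ) (hY : 1 ≤ Y)
    (hc : ∀ α, |c α| ≤ Y) :
    |eval c L| ≤ (∑ m ∈ L.support, |coeff m L|) * Y ^ L.totalDegree := by
  rw [eval_eq, Finset.sum_mul]
  refine (Finset.abs_sum_le_sum_abs _ _).trans (Finset.sum_le_sum fun m hm => ?_)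
  rw [abs_mul]
  refine mul_le_mul_of_nonneg_left ?_ (abs_nonneg _)
  rw [Finset.abs_prod]
  calc ∏ i ∈ m.support, |c i ^ m i| ≤ ∏ i ∈ m.support, Y ^ m i := by
        refine Finset.prod_le_prod (fun i _ => abs_nonneg _) fun i _ => ?_
        rw [abs_pow]
        exact pow_le_pow_left₀ (abs_nonneg _) (hc i) _
    _ = Y ^ (m.sum fun _ e => e) := by rw [Finset.prod_pow_eq_pow_sum]; rfl
    _ ≤ Y ^ L.totalDegree := pow_le_pow_right₀ hY (le_totalDegree hm)

/-- Arithmetic progressions. -/
noncomputable def ap (a Q A : ℤ) (s : ℕ) : Finset ℤ := (Finset.Ico A (A + s)).image fun y => a + Q * y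

theorem mem_ap {a Q A : ℤ} {s : ℕ} {x : ℤ} :
    x ∈ ap a Q A s ↔ ∃ y, A ≤ y ∧ y < A + s ∧ a + Q * y = x := by
  rw [ap, Finset.mem_image]
  simp only [Finset.mem_Ico, and_assoc]

theorem card_ap (a Q A : ℤ) (hQ : Q ≠ 0) (s : ℕ) : (ap a Q A s).card = s := by
  rw [ap, Finset.card_image_of_injective, Int.card_Ico]
  · simp
  · intro x y h
    have : Q * x = Q * y := add_left_cancel h
    exact mul_left_cancel₀ hQ this

theorem ap_dvd_of_eq {a Q : ℤ} {p : ℕ} (hp : p.Prime) (hpQ : ¬ (p : ℤ) ∣ Q) {y y' : ℤ}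
    (h : ((a + Q * y : ℤ) : ZMod p) = ((a + Q * y' : ℤ) : ZMod p)) : (p : ℤ) ∣ y - y' := by
  have := Fact.mk hp
  rw [← sub_eq_zero, ← Int.cast_sub, ZMod.intCast_zmod_eq_zero_iff_dvd] at h
  have h1 : (a + Q * y) - (a + Q * y') = Q * (y - y') := by ring
  rw [h1] at h
  exact ((Nat.prime_iff_prime_int.mp hp).dvd_mul.mp h).resolve_left hpQ

theorem ap_injOn (a Q A : ℤ) {s p : ℕ} (hp : p.Prime) (hpQ : ¬ (p : ℤ) ∣ Q) (hsp : s ≤ p) :
    Set.InjOn (fun x : ℤ => (x : ZMod p)) (ap a Q A s : Set ℤ) := by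
  intro x hx x' hx' h
  rw [Finset.mem_coe, mem_ap] at hx hx'
  obtain ⟨y, h1, h2, rfl⟩ := hx
  obtain ⟨y', h1', h2', rfl⟩ := hx'
  have h3 := ap_dvd_of_eq hp hpQ h
  have h4 : y - y' = 0 := by
    apply Int.eq_zero_of_abs_lt_dvd h3
    rw [abs_lt]
    have : (s : ℤ) ≤ p := by exact_mod_cast hsp
    constructor <;> omega
  rw [show y = y' by omega]

open Classical in
theorem ap_residue_card_le (a Q A : ℤ) {s p : ℕ} (hp : p.Prime) (hpQ : ¬ (p : ℤ) ∣ Q)
    (r : ZMod p) : ((ap a Q A s).filter fun x : ℤ => (x : ZMod p) = r).card ≤ s / p + 1 := by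
  have hp0 : (0 : ℤ) < p := by exact_mod_cast hp.pos
  rw [show s / p + 1 = (Finset.range (s / p + 1)).card by simp]
  have h0 : (ap a Q A s).filter (fun x : ℤ => (x : ZMod p) = r) =
      ((Finset.Ico A (A + s)).filter fun y => ((a + Q * y : ℤ) : ZMod p) = r).image
        fun y => a + Q * y := by
    ext x
    simp only [Finset.mem_filter, mem_ap, Finset.mem_image, Finset.mem_Ico]
    constructor
    · rintro ⟨⟨y, h1, h2, rfl⟩, h3⟩
      exact ⟨y, ⟨⟨h1, h2⟩, h3⟩, rfl⟩
    · rintro ⟨y, ⟨⟨h1, h2⟩, h3⟩, rfl⟩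
      exact ⟨⟨y, h1, h2, rfl⟩, h3⟩
  rw [h0]
  refine Finset.card_image_le.trans ?_
  refine Finset.card_le_card_of_injOn (fun y => ((y - A) / p).toNat) ?_ ?_
  · intro y hy
    simp only [Finset.coe_filter, Set.mem_ofPred_eq, Finset.mem_Ico] at hy
    obtain ⟨⟨h1, h2⟩, -⟩ := hy
    simp only [Finset.coe_range, Set.mem_Iio]
    have h3 : (y - A) / p ≤ (s : ℤ) / p := Int.ediv_le_ediv hp0 (by omega)
    have h4 : 0 ≤ (y - A) / p := Int.ediv_nonneg (by omega) hp0.le
    have h5 : ((s / p : ℕ) : ℤ) = (s : ℤ) / p := by push_cast; rfl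
    omega
  · intro y hy y' hy' h
    simp only [Finset.coe_filter, Set.mem_ofPred_eq, Finset.mem_Ico] at hy hy'
    obtain ⟨⟨h1, h2⟩, h3⟩ := hy
    obtain ⟨⟨h1', h2'⟩, h3'⟩ := hy'
    have h4 := ap_dvd_of_eq hp hpQ (h3.trans h3'.symm)
    have h5 : 0 ≤ (y - A) / p := Int.ediv_nonneg (by omega) hp0.le
    have h5' : 0 ≤ (y' - A) / p := Int.ediv_nonneg (by omega) hp0.le
    have h6 : (y - A) / p = (y' - A) / p := by
      have : ((y - A) / p).toNat = ((y' - A) / p).toNat := h
      omega
    obtain ⟨t, ht⟩ := h4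
    have h7 : y - A = (y' - A) + t * p := by linarith
    rw [h7, Int.add_mul_ediv_right _ _ hp0.ne'] at h6
    have h8 : t = 0 := by omega
    rw [h8] at ht
    simp at ht
    omega

end Pool.Agent.H97.PP
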