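import Pool.Agent.H97.PP.Count

/-!
# Primes of moderate size
-/

set_option autoImplicit false

namespace Pool.Agent.H97.PP

open MvPolynomial

section

variable {n d : ℕ}

theorem aeval_eq_eval_map {A k : Type} [Field k] (P : MvPolynomial A ℤ) (c : A → k) :
    aeval c P = eval c (map (Int.castRingHom k) P) := by
  rw [aeval_def, eval₂_eq_eval_map]
  rfl

/-- A coefficient of the generic Hessian. -/
noncomputable def polH (n d : ℕ) : MvPolynomial (AMon n d) ℤ :=
  co (hess (aff fun α : AMon n d => (X α : MvPolynomial (AMon n d) ℤ))) fun _ => d - 2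

theorem aeval_polH {R : Type} [CommRing R] (c : AMon n d → R) :
    aeval c (polH n d) = co (hess (aff c)) fun _ => d - 2 := by
  have h1 := co_map (aeval c : MvPolynomial (AMon n d) ℤ →ₐ[ℤ] R).toRingHom
    (hess (aff fun α : AMon n d => (X α : MvPolynomial (AMon n d) ℤ))) fun _ => d - 2
  rw [map_hess, map_aff] at h1
  have h2 : (fun α => (aeval c : MvPolynomial (AMon n d) ℤ →ₐ[ℤ] R).toRingHom (X α)) = c := by
    funext α
    exact aeval_X c α
  rw [h2] at h1
  exact h1.symm

theorem hess_f0_eq (hd : 2 ≤ d) :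
    hess (f0 n d) = C (((d : ℤ) * (d - 1 : ℤ)) ^ n) * mono ℤ fun _ => d - 2 := by
  rw [hess_f0 d hd, Finset.prod_mul_distrib, Finset.prod_const, Finset.card_univ, Fintype.card_fin,
    ← C_pow]
  congr 1
  have h1 : ∀ s : Finset (Fin n), ∏ j ∈ s, (X j : MvPolynomial (Fin n) ℤ) ^ (d - 2) =
      mono ℤ (fun i => if i ∈ s then d - 2 else 0) := by
    intro s
    classical
    induction s using Finset.induction_on with
    | empty =>
      rw [Finset.prod_empty]
      simp only [Finset.notMem_empty, if_false]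
      exact mono_zero.symm
    | insert a s ha ih =>
      rw [Finset.prod_insert ha, ih, ← mono_single, ← mono_add]
      congr 1
      funext i
      by_cases hi : i = a
      · subst hi; simp [ha]
      · simp [hi]
  rw [h1]
  simp

theorem map_polH_ne_zero (hd : 2 ≤ d) {p : ℕ} [hp : Fact p.Prime] (hdp : d < p) :
    map (Int.castRingHom (ZMod p)) (polH n d) ≠ 0 := by
  classical
  intro h0
  have hf : (f0 n d).totalDegree ≤ d := by
    refine totalDegree_finsetSum_le fun j _ => ?_
    refine (totalDegree_add _ _).trans (max_le ?_ ?_)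
    · rw [totalDegree_X_pow]
    · rw [totalDegree_X]; omega
  let c : AMon n d → ℤ := fun α => co (f0 n d) α.1
  have hc : aff c = f0 n d := (aff_as_sum (f0 n d) d hf).symm
  have h1 : aeval (fun α => ((c α : ℤ) : ZMod p)) (polH n d) = 0 := by
    rw [aeval_eq_eval_map, h0, map_zero]
  have h2 : (fun α => ((c α : ℤ) : ZMod p)) = fun α => Int.castRingHom (ZMod p) (c α) := rfl
  rw [aeval_polH, h2, ← map_aff, ← map_hess, co_map, hc, hess_f0_eq hd, co_C_mul, co_mono,
    if_pos rfl, mul_one, map_pow] at h1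
  refine pow_ne_zero n ?_ h1
  intro h3
  have h4 : (((d * (d - 1) : ℕ) : ℤ) : ZMod p) = 0 := by
    rw [← h3]
    have : ((d * (d - 1) : ℕ) : ℤ) = (d : ℤ) * (d - 1 : ℤ) := by
      rw [Nat.cast_mul, Nat.cast_sub (by omega)]; simp
    rw [this]
    rfl
  rw [Int.cast_natCast, ZMod.natCast_eq_zero_iff] at h4
  rcases (hp.out.dvd_mul).mp h4 with h5 | h5
  · have := Nat.le_of_dvd (by omega) h5
    omega
  · have := Nat.le_of_dvd (by omega) h5
    omega

/-- `c` is bad modulo the prime `p`. -/
def BadAt (p : ℕ) (c : AMon n d → ℤ) : Prop :=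
  ∃ hp : p.Prime, letI := Fact.mk hp; Bad (fun α => ((c α : ℤ) : ZMod p))

end

section

variable {m d : ℕ}

open Classical in
/-- Number of bad classes modulo a prime. -/
theorem card_bad_le (hd : 2 ≤ d) {p : ℕ} [hp : Fact p.Prime] (hdp : d < p) :
    ((Finset.univ : Finset (AMon (m + 1) d → ZMod p)).filter fun c => Bad c).card * p ^ 2 ≤
      ((polH (m + 1) d).totalDegree * ((m + 2) * (d + 1)) ^ (m + 1) +
        ((m + 1) * d) * ((m + 2) * (d + 1)) ^ m) * p ^ Fintype.card (AMon (m + 1) d) := by
  set N := Fintype.card (AMon (m + 1) d) with hN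
  set K := (m + 2) * (d + 1) with hK
  set P := map (Int.castRingHom (ZMod p)) (polH (m + 1) d) with hP
  have hP0 : P ≠ 0 := map_polH_ne_zero hd hdp
  have hp1 : 1 ≤ p := hp.out.pos
  have hd1 : 1 ≤ d := by omega
  let ι : Option (Fin (m + 1)) → AMon (m + 1) d := idx hd1
  have hι : Function.Injective ι := idx_injective hd1
  obtain ⟨G1, hG1P⟩ : ∃ G1 : (AMon (m + 1) d → ZMod p) → Prop, ∀ c, G1 c ↔ eval c P = 0 :=
    ⟨_, fun _ => Iff.rfl⟩
  obtain ⟨G2, hG2⟩ : ∃ G2 : (AMon (m + 1) d → ZMod p) → Prop, ∀ c, G2 c ↔ ¬ G1 c :=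
    ⟨_, fun _ => Iff.rfl⟩
  have hG1 : ∀ c, G1 c ↔ co (hess (aff c)) (fun _ => d - 2) = 0 := by
    intro c
    rw [hG1P, hP, ← aeval_eq_eval_map, aeval_polH]
  have hinv : ∀ (c : AMon (m + 1) d → ZMod p) (e : Option (Fin (m + 1)) → ZMod p), co (hess (aff (Function.extend ι e c))) (fun _ => d - 2) =
      co (hess (aff c)) (fun _ => d - 2) := by
    intro c e
    have h1 : c = Function.extend ι (fun o => c (ι o)) c := by
      funext α
      by_cases h : ∃ o, ι o = α
      · obtain ⟨o, rfl⟩ := h
        rw [hι.extend_apply]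
      · rw [Function.extend_apply' _ _ _ h]
    have h2 := hess_aff_extend hd1 (fun o => c (ι o)) c
    rw [← h1] at h2
    rw [hess_aff_extend hd1 e c, h2]
  have hpi : (Fintype.piFinset fun _ : AMon (m + 1) d => (Finset.univ : Finset (ZMod p))) =
      Finset.univ := Fintype.piFinset_univ
  have hcardp : (Finset.univ : Finset (ZMod p)).card = p := by
    rw [Finset.card_univ, ZMod.card]
  -- the fibre bounds
  have hKp : (m + 1 + 1) * ((p - 1) * (d + 1)) + 1 ≤ K * p := by
    obtain ⟨q, rfl⟩ := Nat.exists_eq_add_of_le hp1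
    rw [hK, show 1 + q - 1 = q by omega]
    nlinarith
  have h1 := fibre_count ι hι (fun _ => (Finset.univ : Finset (ZMod p))) G1 Bad
    (fun c e h => by rw [hG1, hinv, ← hG1]; exact h) ((K * p) ^ (m + 1)) (by
      intro c _ _
      refine (bad_fibre_card_le hd1 c (fun _ => Finset.univ) p (fun _ => hcardp.le)).trans ?_
      exact Nat.pow_le_pow_left hKp _)
  have h2 := fibre_count ι hι (fun _ => (Finset.univ : Finset (ZMod p))) G2 Bad
    (fun c e h => by rw [hG2, hG1] at h ⊢; rwa [hinv]) (((m + 1) * d) * (K * p) ^ m) (by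
      intro c _ hc
      refine (bad_fibre_card_le_of_hess hd1 c (fun _ => Finset.univ) p
        (fun _ => hcardp.le) ?_).trans ?_
      · intro h0
        apply (hG2 c).mp hc
        rw [hG1, ← hinv c 0]
        show co (hess (aff (Function.extend (idx hd1) 0 c))) _ = 0
        rw [h0]
        exact coeff_zero _
      · exact Nat.mul_le_mul_left _ (Nat.pow_le_pow_left hKp _))
  have h3 := sz_le P hP0 (fun _ => (Finset.univ : Finset (ZMod p))) p (fun _ => hcardp)
    ((Finset.univ : Finset (AMon (m + 1) d → ZMod p)).filter fun c => G1 c)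
    (by rw [hpi]; exact Finset.subset_univ _)
    (fun c hc => (hG1P c).mp (Finset.mem_filter.mp hc).2)
  rw [hpi] at h1 h2
  simp only [hcardp, Finset.prod_const, Finset.card_univ, Fintype.card_option, Fintype.card_fin]
    at h1 h2
  have h4 : P.totalDegree ≤ (polH (m + 1) d).totalDegree := by
    rw [totalDegree, totalDegree]
    exact Finset.sup_mono (support_map_subset _ _)
  have h5 : ((Finset.univ : Finset (AMon (m + 1) d → ZMod p)).filter fun c => G2 c).card ≤
      p ^ N := by
    refine (Finset.card_le_univ _).trans ?_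
    rw [Fintype.card_fun, ZMod.card]
  have h6 : ((Finset.univ : Finset (AMon (m + 1) d → ZMod p)).filter fun c => Bad c).card =
      ((Finset.univ : Finset (AMon (m + 1) d → ZMod p)).filter fun c => G1 c ∧ Bad c).card +
      ((Finset.univ : Finset (AMon (m + 1) d → ZMod p)).filter fun c => G2 c ∧ Bad c).card := by
    rw [← Finset.card_union_of_disjoint]
    · congr 1
      ext c
      simp only [Finset.mem_filter, Finset.mem_univ, true_and, Finset.mem_union, hG2]
      constructor
      · intro h7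
        by_cases h8 : G1 c
        · exact Or.inl ⟨h8, h7⟩
        · exact Or.inr ⟨h8, h7⟩
      · rintro (h7 | h7)
        · exact h7.2
        · exact h7.2
    · rw [Finset.disjoint_filter]
      intro c _ h7 h8
      exact (hG2 c).mp h8.1 h7.1
  set x1 := ((Finset.univ : Finset (AMon (m + 1) d → ZMod p)).filter fun c => G1 c ∧ Bad c).card
  set x2 := ((Finset.univ : Finset (AMon (m + 1) d → ZMod p)).filter fun c => G2 c ∧ Bad c).card
  set g1 := ((Finset.univ : Finset (AMon (m + 1) d → ZMod p)).filter fun c => G1 c).card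
  set g2 := ((Finset.univ : Finset (AMon (m + 1) d → ZMod p)).filter fun c => G2 c).card
  have h3' : g1 * p ≤ (polH (m + 1) d).totalDegree * p ^ N :=
    h3.trans (Nat.mul_le_mul_right _ h4)
  have e1 : x1 * p ^ 2 ≤ ((polH (m + 1) d).totalDegree * K ^ (m + 1)) * p ^ N := by
    have hpos : 0 < p ^ (m + 1) := Nat.pow_pos hp1
    refine Nat.le_of_mul_le_mul_right ?_ hpos
    calc x1 * p ^ 2 * p ^ (m + 1) = (x1 * p ^ (m + 1 + 1)) * p := by ring
      _ ≤ (g1 * (K * p) ^ (m + 1)) * p := Nat.mul_le_mul_right _ h1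
      _ = (g1 * p) * (K * p) ^ (m + 1) := by ring
      _ ≤ ((polH (m + 1) d).totalDegree * p ^ N) * (K * p) ^ (m + 1) :=
          Nat.mul_le_mul_right _ h3'
      _ = ((polH (m + 1) d).totalDegree * K ^ (m + 1)) * p ^ N * p ^ (m + 1) := by
          rw [mul_pow]; ring
  have e2 : x2 * p ^ 2 ≤ (((m + 1) * d) * K ^ m) * p ^ N := by
    have hpos : 0 < p ^ m := Nat.pow_pos hp1
    refine Nat.le_of_mul_le_mul_right ?_ hpos
    calc x2 * p ^ 2 * p ^ m = x2 * p ^ (m + 1 + 1) := by ring
      _ ≤ g2 * (((m + 1) * d) * (K * p) ^ m) := h2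
      _ ≤ p ^ N * (((m + 1) * d) * (K * p) ^ m) := Nat.mul_le_mul_right _ h5
      _ = (((m + 1) * d) * K ^ m) * p ^ N * p ^ m := by rw [mul_pow]; ring
  rw [h6, add_mul, add_mul]
  exact Nat.add_le_add e1 e2

open Classical in
/-- Number of bad polynomials modulo `p` in a box of side `s ≥ p`. -/
theorem card_badAt_le (hd : 2 ≤ d) {p : ℕ} (hp : p.Prime) (hdp : d < p) (a A : AMon (m + 1) d → ℤ)
    (Q : ℤ) (hpQ : ¬ (p : ℤ) ∣ Q) (s : ℕ) (hps : p ≤ s) :
    ((Fintype.piFinset fun α => ap (a α) Q (A α) s).filter fun c => BadAt p c).card * p ^ 2 ≤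
      ((polH (m + 1) d).totalDegree * ((m + 2) * (d + 1)) ^ (m + 1) +
        ((m + 1) * d) * ((m + 2) * (d + 1)) ^ m) * (2 * s) ^ Fintype.card (AMon (m + 1) d) := by
  have hFact := Fact.mk hp
  set C1 := ((polH (m + 1) d).totalDegree * ((m + 2) * (d + 1)) ^ (m + 1) +
        ((m + 1) * d) * ((m + 2) * (d + 1)) ^ m) with hC1
  set N := Fintype.card (AMon (m + 1) d) with hN
  have h1 : ((Fintype.piFinset fun α => ap (a α) Q (A α) s).filter fun c => BadAt p c).card ≤
      (s / p + 1) ^ N *
      ((Finset.univ : Finset (AMon (m + 1) d → ZMod p)).filter fun c => Bad c).card := by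
    refine Finset.card_le_mul_card_image_of_maps_to (f := fun c α => ((c α : ℤ) : ZMod p)) ?_ _ ?_
    · intro c hc
      rw [Finset.mem_filter] at hc ⊢
      obtain ⟨_, h⟩ := hc.2
      exact ⟨Finset.mem_univ _, h⟩
    · intro b _
      have h2 : ((((Fintype.piFinset fun α => ap (a α) Q (A α) s).filter fun c => BadAt p c)).filter
          fun c => (fun α => ((c α : ℤ) : ZMod p)) = b) ⊆
          Fintype.piFinset fun α => (ap (a α) Q (A α) s).filter
            fun x : ℤ => (x : ZMod p) = b α := by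
        intro c hc
        rw [Finset.mem_filter, Finset.mem_filter, Fintype.mem_piFinset] at hc
        rw [Fintype.mem_piFinset]
        intro α
        rw [Finset.mem_filter]
        exact ⟨hc.1.1 α, congrFun hc.2 α⟩
      refine (Finset.card_le_card h2).trans ?_
      rw [Fintype.card_piFinset]
      refine (Finset.prod_le_pow_card _ _ (s / p + 1) fun α _ =>
        ap_residue_card_le (a α) Q (A α) hp hpQ (b α)).trans ?_
      rw [Finset.card_univ]
  have h2 := card_bad_le (m := m) hd hdp
  have h3 : (s / p + 1) * p ≤ 2 * s := by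
    have := Nat.div_mul_le_self s p
    rw [add_mul, one_mul]
    omega
  calc _ ≤ ((s / p + 1) ^ N *
      ((Finset.univ : Finset (AMon (m + 1) d → ZMod p)).filter fun c => Bad c).card) * p ^ 2 :=
        Nat.mul_le_mul_right _ h1
    _ = (s / p + 1) ^ N *
      (((Finset.univ : Finset (AMon (m + 1) d → ZMod p)).filter fun c => Bad c).card * p ^ 2) := by
        ring
    _ ≤ (s / p + 1) ^ N * (C1 * p ^ N) := Nat.mul_le_mul_left _ h2
    _ = C1 * ((s / p + 1) * p) ^ N := by rw [mul_pow]; ring
    _ ≤ C1 * (2 * s) ^ N := Nat.mul_le_mul_left _ (Nat.pow_le_pow_left h3 _)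

end

end Pool.Agent.H97.PP
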