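import Pool.Agent.H97.PP.PolyMethod

/-!
# Affine polynomials with given coefficients, degenerate critical zeros, and their number
-/

set_option autoImplicit false

namespace Pool.Agent.H97.PP

open MvPolynomial

/-- Exponents in `n` variables of total degree at most `d`. -/
abbrev AMon (n d : ℕ) : Type := ↥(monLE n d)

section Ring

variable {R : Type} [CommRing R] {n d : ℕ}

/-- The monomial with exponent `α`. -/
noncomputable def mono (R : Type) [CommRing R] {n : ℕ} (α : Fin n → ℕ) : MvPolynomial (Fin n) R :=
  monomial (Finsupp.equivFunOnFinite.symm α) 1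

/-- The polynomial of degree `≤ d` with coefficients `c`. -/
noncomputable def aff (c : AMon n d → R) : MvPolynomial (Fin n) R :=
  ∑ α, C (c α) * mono R α.1

theorem aff_add (c c' : AMon n d → R) : aff (c + c') = aff c + aff c' := by
  rw [aff, aff, aff, ← Finset.sum_add_distrib]
  refine Finset.sum_congr rfl fun α _ => ?_
  rw [Pi.add_apply, C_add, add_mul]

theorem map_mono {R' : Type} [CommRing R'] (φ : R →+* R') (α : Fin n → ℕ) :
    map φ (mono R α) = mono R' α := by
  rw [mono, mono, map_monomial, map_one]

theorem map_aff {R' : Type} [CommRing R'] (φ : R →+* R') (c : AMon n d → R) :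
    map φ (aff c) = aff (fun α => φ (c α)) := by
  rw [aff, aff, map_sum]
  refine Finset.sum_congr rfl fun α _ => ?_
  rw [map_mul, map_C, map_mono]

theorem totalDegree_mono_le (α : Fin n → ℕ) : (mono R α).totalDegree ≤ ∑ i, α i := by
  refine (totalDegree_monomial_le _ _).trans ?_
  rw [Finsupp.sum_fintype _ _ (fun _ => rfl)]
  rfl

theorem totalDegree_aff_le (c : AMon n d → R) : (aff c).totalDegree ≤ d := by
  refine totalDegree_finsetSum_le fun α _ => ?_
  refine (totalDegree_mul _ _).trans ?_
  rw [totalDegree_C, zero_add]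
  exact (totalDegree_mono_le α.1).trans (mem_monLE.mp α.2)

theorem totalDegree_pderiv_le (j : Fin n) (f : MvPolynomial (Fin n) R) :
    (pderiv j f).totalDegree ≤ f.totalDegree := by
  classical
  rw [f.as_sum, map_sum]
  refine totalDegree_finsetSum_le fun m hm => ?_
  rw [pderiv_monomial]
  refine (totalDegree_monomial_le _ _).trans ?_
  have h1 : (m - Finsupp.single j 1).degree ≤ m.degree :=
    Finsupp.degree_mono tsub_le_self
  refine h1.trans ?_
  rw [← f.as_sum]
  exact le_totalDegree hm

/-- The Hessian determinant. -/
noncomputable def hess (f : MvPolynomial (Fin n) R) : MvPolynomial (Fin n) R :=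
  Matrix.det (Matrix.of fun j l => pderiv j (pderiv l f))

theorem totalDegree_hess_le (f : MvPolynomial (Fin n) R) :
    (hess f).totalDegree ≤ n * f.totalDegree := by
  classical
  rw [hess, Matrix.det_apply]
  refine totalDegree_finsetSum_le fun σ _ => ?_
  have h1 : (∏ i, Matrix.of (fun j l => pderiv j (pderiv l f)) (σ i) i).totalDegree ≤
      n * f.totalDegree := by
    refine (totalDegree_finsetProd _ _).trans ?_
    refine (Finset.sum_le_card_nsmul _ _ f.totalDegree fun i _ => ?_).trans (by simp)
    exact (totalDegree_pderiv_le _ _).trans (totalDegree_pderiv_le _ _)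
  rcases Int.units_eq_one_or (Equiv.Perm.sign σ) with h | h
  · rw [h, one_smul]; exact h1
  · rw [h, Units.neg_smul, one_smul, totalDegree_neg]; exact h1

theorem map_hess {R' : Type} [CommRing R'] (φ : R →+* R') (f : MvPolynomial (Fin n) R) :
    map φ (hess f) = hess (map φ f) := by
  rw [hess, hess, RingHom.map_det]
  congr 1
  ext j l : 2
  simp only [RingHom.mapMatrix_apply, Matrix.map_apply, Matrix.of_apply]
  rw [pderiv_map, pderiv_map]

/-- The exponents of degree `≤ 1`: `none` is the constant term, `some j` is the variable `j`. -/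
def idx (hd : 1 ≤ d) (o : Option (Fin n)) : AMon n d :=
  ⟨o.elim 0 (fun j => Pi.single j 1), by
    rw [mem_monLE]
    cases o with
    | none => simp
    | some j => simp [hd]⟩

theorem idx_injective (hd : 1 ≤ d) : Function.Injective (idx (n := n) hd) := by
  intro o o' h
  have h1 := congrArg Subtype.val h
  cases o with
  | none =>
    cases o' with
    | none => rfl
    | some j =>
      have h2 := congrFun h1 j
      simp [idx] at h2
  | some i =>
    cases o' with
    | none =>
      have h2 := congrFun h1 i
      simp [idx] at h2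
    | some j =>
      by_contra hne
      have hij : i ≠ j := fun h' => hne (by rw [h'])
      have h2 := congrFun h1 i
      simp [idx, hij] at h2

theorem mono_idx_none (hd : 1 ≤ d) : mono R (idx (n := n) hd none).1 = 1 := by
  have : (Finsupp.equivFunOnFinite.symm (0 : Fin n → ℕ)) = 0 := by ext; rfl
  show monomial (Finsupp.equivFunOnFinite.symm (0 : Fin n → ℕ)) (1 : R) = 1
  rw [this]; rfl

theorem mono_idx_some (hd : 1 ≤ d) (j : Fin n) : mono R (idx hd (some j)).1 = X j := by
  have : (Finsupp.equivFunOnFinite.symm (Pi.single j 1 : Fin n → ℕ)) = Finsupp.single j 1 := by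
    ext i
    rw [Finsupp.single_eq_pi_single]
    rfl
  show monomial (Finsupp.equivFunOnFinite.symm (Pi.single j 1 : Fin n → ℕ)) (1 : R) = X j
  rw [this]; rfl

open Classical in
theorem aff_extend (hd : 1 ≤ d) (e : Option (Fin n) → R) (g : AMon n d → R) :
    aff (Function.extend (idx hd) e g) =
      aff (Function.extend (idx hd) 0 g) + (C (e none) + ∑ j, C (e (some j)) * X j) := by
  have h1 : Function.extend (idx hd) e g =
      Function.extend (idx hd) 0 g + Function.extend (idx hd) e 0 := by
    funext α
    rw [Pi.add_apply]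
    by_cases h : ∃ o, idx hd o = α
    · obtain ⟨o, rfl⟩ := h
      rw [(idx_injective hd).extend_apply, (idx_injective hd).extend_apply,
        (idx_injective hd).extend_apply]
      simp
    · rw [Function.extend_apply' _ _ _ h, Function.extend_apply' _ _ _ h,
        Function.extend_apply' _ _ _ h]
      simp
  rw [h1, aff_add]
  congr 1
  have h2 : aff (Function.extend (idx hd) e 0) =
      ∑ o, C (e o) * mono R (idx hd o).1 := by
    rw [aff, ← Finset.sum_map Finset.univ ⟨idx hd, idx_injective hd⟩
      (fun α => C (Function.extend (idx hd) e 0 α) * mono R α.1)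
      |>.trans (Finset.sum_congr rfl fun o _ => by
        rw [Function.Embedding.coeFn_mk, (idx_injective hd).extend_apply])]
    symm
    apply Finset.sum_subset (Finset.subset_univ _)
    intro α _ hα
    rw [Function.extend_apply']
    · simp
    · rintro ⟨o, ho⟩
      apply hα
      rw [Finset.mem_map]
      exact ⟨o, Finset.mem_univ _, ho⟩
  rw [h2, Fintype.sum_option, mono_idx_none, mul_one]
  congr 1
  refine Finset.sum_congr rfl fun j _ => ?_
  rw [mono_idx_some]

theorem pderiv_aff_extend (hd : 1 ≤ d) (e : Option (Fin n) → R) (g : AMon n d → R) (i : Fin n) :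
    pderiv i (aff (Function.extend (idx hd) e g)) =
      pderiv i (aff (Function.extend (idx hd) 0 g)) + C (e (some i)) := by
  classical
  rw [aff_extend, map_add, map_add, pderiv_C, zero_add, map_sum, Finset.sum_eq_single i]
  · rw [pderiv_C_mul, pderiv_X_self, mul_one]
  · intro j _ hj
    rw [pderiv_C_mul, pderiv_X_of_ne hj, mul_zero]
  · intro h; exact absurd (Finset.mem_univ i) h

theorem hess_aff_extend (hd : 1 ≤ d) (e : Option (Fin n) → R) (g : AMon n d → R) :
    hess (aff (Function.extend (idx hd) e g)) = hess (aff (Function.extend (idx hd) 0 g)) := by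
  rw [hess, hess]
  congr 1
  ext j l : 2
  rw [Matrix.of_apply, Matrix.of_apply, pderiv_aff_extend, map_add, pderiv_C, add_zero]

/-- The polynomials recovering the coefficients of degree `≤ 1` from a critical zero. -/
noncomputable def uu (g : MvPolynomial (Fin n) R) (o : Option (Fin n)) : MvPolynomial (Fin n) R :=
  o.elim (-g + ∑ j, X j * pderiv j g) (fun j => -pderiv j g)

theorem totalDegree_uu_le (g : MvPolynomial (Fin n) R) (hg : g.totalDegree ≤ d)
    (o : Option (Fin n)) : (uu g o).totalDegree ≤ d + 1 := by
  cases o with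
  | none =>
    refine (totalDegree_add _ _).trans (max_le ?_ ?_)
    · rw [totalDegree_neg]; omega
    · refine totalDegree_finsetSum_le fun j _ => ?_
      refine (totalDegree_mul _ _).trans ?_
      have h1 : (X j : MvPolynomial (Fin n) R).totalDegree ≤ 1 := by
        refine (totalDegree_monomial_le _ _).trans ?_
        rw [Finsupp.sum_single_index rfl]
        rfl
      have h2 := totalDegree_pderiv_le j g
      omega
  | some j =>
    show (-pderiv j g).totalDegree ≤ d + 1
    rw [totalDegree_neg]
    have h2 := totalDegree_pderiv_le j g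
    omega

end Ring

section Field

variable {k : Type} [Field k] {n d : ℕ}

/-- The polynomial with coefficients `c` has, over some extension field, a critical zero with
vanishing Hessian determinant. -/
def Bad (c : AMon n d → k) : Prop :=
  ∃ (L : Type) (_ : Field L) (_ : Algebra k L) (φ : MvPolynomial (Fin n) k →ₐ[k] L),
    φ (aff c) = 0 ∧ (∀ j, φ (pderiv j (aff c)) = 0) ∧ φ (hess (aff c)) = 0

theorem uu_apply (hd : 1 ≤ d) (e : Option (Fin n) → k) (g : AMon n d → k) {L : Type} [Field L]
    [Algebra k L] (φ : MvPolynomial (Fin n) k →ₐ[k] L)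
    (h0 : φ (aff (Function.extend (idx hd) e g)) = 0)
    (h1 : ∀ j, φ (pderiv j (aff (Function.extend (idx hd) e g))) = 0) (o : Option (Fin n)) :
    φ (uu (aff (Function.extend (idx hd) 0 g)) o) = algebraMap k L (e o) := by
  have hC : ∀ r : k, φ (C r) = algebraMap k L r := fun r => φ.commutes r
  have h2 : ∀ j, φ (pderiv j (aff (Function.extend (idx hd) 0 g))) =
      -algebraMap k L (e (some j)) := by
    intro j
    have := h1 j
    rw [pderiv_aff_extend, map_add, hC] at this
    exact eq_neg_of_add_eq_zero_left this
  cases o with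
  | none =>
    show φ (-aff (Function.extend (idx hd) 0 g) + ∑ j, X j *
      pderiv j (aff (Function.extend (idx hd) 0 g))) = _
    rw [aff_extend, map_add, map_add, hC, map_sum] at h0
    rw [map_add, map_neg, map_sum]
    have h3 : ∑ j, φ (X j * pderiv j (aff (Function.extend (idx hd) 0 g))) =
        -∑ j, φ (C (e (some j)) * X j) := by
      rw [← Finset.sum_neg_distrib]
      refine Finset.sum_congr rfl fun j _ => ?_
      rw [map_mul, map_mul, h2, hC]
      ring
    rw [h3]
    linear_combination (-1 : L) * h0
  | some j =>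
    show φ (-pderiv j (aff (Function.extend (idx hd) 0 g))) = _
    rw [map_neg, h2, neg_neg]

open Classical in
/-- Number of bad polynomials in a fibre of the grid. -/
theorem bad_fibre_card_le (hd : 1 ≤ d) (g : AMon n d → k) (S : Option (Fin n) → Finset k) (s : ℕ)
    (hS : ∀ o, (S o).card ≤ s) :
    ((Fintype.piFinset S).filter fun e => Bad (Function.extend (idx hd) e g)).card ≤
      ((n + 1) * ((s - 1) * (d + 1)) + 1) ^ n := by
  set E := (Fintype.piFinset S).filter fun e => Bad (Function.extend (idx hd) e g) with hE
  by_cases hne : E = ∅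
  · rw [hne]; simp
  have hex : ∀ e : Option (Fin n) → k, ∃ (L : Type) (_ : Field L) (_ : Algebra k L)
      (φ : MvPolynomial (Fin n) k →ₐ[k] L), e ∈ E →
      (φ (aff (Function.extend (idx hd) e g)) = 0 ∧
      (∀ j, φ (pderiv j (aff (Function.extend (idx hd) e g))) = 0)) := by
    intro e
    by_cases he : e ∈ E
    · obtain ⟨L, i1, i2, φ, h1, h2, _⟩ := (Finset.mem_filter.mp he).2
      exact ⟨L, i1, i2, φ, fun _ => ⟨h1, h2⟩⟩
    · exact ⟨k, inferInstance, inferInstance, aeval 0, fun h => absurd h he⟩
  choose L i1 i2 φ hφ using hex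
  have h3 := grid_card_le S (uu (aff (Function.extend (idx hd) 0 g))) E
    (fun e he j => Fintype.mem_piFinset.mp (Finset.mem_filter.mp he).1 j) L φ
    (fun e he o => uu_apply hd e g (φ e) (hφ e he).1 (hφ e he).2 o) s (d + 1) hS
    (fun o => totalDegree_uu_le _ (totalDegree_aff_le _) o)
  rwa [Fintype.card_option, Fintype.card_fin] at h3

open Classical in
/-- Number of bad polynomials in a fibre of the grid, if the Hessian does not vanish. -/
theorem bad_fibre_card_le_of_hess {m : ℕ} (hd : 1 ≤ d) (g : AMon (m + 1) d → k)
    (S : Option (Fin (m + 1)) → Finset k) (s : ℕ) (hS : ∀ o, (S o).card ≤ s)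
    (hg : hess (aff (Function.extend (idx hd) 0 g)) ≠ 0) :
    ((Fintype.piFinset S).filter fun e => Bad (Function.extend (idx hd) e g)).card ≤
      ((m + 1) * d) * ((m + 1 + 1) * ((s - 1) * (d + 1)) + 1) ^ m := by
  set E := (Fintype.piFinset S).filter fun e => Bad (Function.extend (idx hd) e g) with hE
  by_cases hne : E = ∅
  · rw [hne]; simp
  have hex : ∀ e : Option (Fin (m + 1)) → k, ∃ (L : Type) (_ : Field L) (_ : Algebra k L)
      (φ : MvPolynomial (Fin (m + 1)) k →ₐ[k] L), e ∈ E →
      (φ (aff (Function.extend (idx hd) e g)) = 0 ∧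
      (∀ j, φ (pderiv j (aff (Function.extend (idx hd) e g))) = 0) ∧
      φ (hess (aff (Function.extend (idx hd) e g))) = 0) := by
    intro e
    by_cases he : e ∈ E
    · obtain ⟨L, i1, i2, φ, h1, h2, h3⟩ := (Finset.mem_filter.mp he).2
      exact ⟨L, i1, i2, φ, fun _ => ⟨h1, h2, h3⟩⟩
    · exact ⟨k, inferInstance, inferInstance, aeval 0, fun h => absurd h he⟩
  choose L i1 i2 φ hφ using hex
  have h3 := grid_card_le_of_rel S (uu (aff (Function.extend (idx hd) 0 g))) E
    (fun e he j => Fintype.mem_piFinset.mp (Finset.mem_filter.mp he).1 j) L φ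
    (fun e he o => uu_apply hd e g (φ e) (hφ e he).1 (hφ e he).2.1 o) s (d + 1) hS
    (fun o => totalDegree_uu_le _ (totalDegree_aff_le _) o) _ hg (fun e he => by
      have := (hφ e he).2.2
      rwa [hess_aff_extend] at this)
  rw [Fintype.card_option, Fintype.card_fin] at h3
  refine h3.trans (Nat.mul_le_mul_right _ ?_)
  exact (totalDegree_hess_le _).trans (Nat.mul_le_mul_left _ (totalDegree_aff_le _))

end Field

end Pool.Agent.H97.PP
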