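import Pool.Agent.H97.PP.Count

/-!
# From boxes in arithmetic progressions to all real boxes
-/

set_option autoImplicit false

namespace Pool.Agent.H97.PP

/-- If, in every box of side `s` in the progressions `c₀ + Q ℤ`, at least half of the points are
good, then in every large dilate of every real box a proportion at least `(1/2) (2 Q) ^ (-N)` of
the volume is filled by good points. -/
theorem box_density {B : Type} [Fintype B] [DecidableEq B] (Good : (B → ℤ) → Prop)
    (Q : ℤ) (hQ : 0 < Q) (c0 : B → ℤ)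
    (hG : ∀ K : ℕ, ∃ s0 : ℕ, ∀ s ≥ s0, ∀ A : B → ℤ, (∀ β, |A β| ≤ K * s) →
      ∃ E : Finset (B → ℤ), (∀ c ∈ E, c ∈ (Fintype.piFinset fun β => ap (c0 β) Q (A β) s) ∧
        Good c) ∧ s ^ Fintype.card B ≤ 2 * E.card)
    (lo hi : B → ℝ) (hlh : ∀ β, lo β < hi β) :
    ∃ H0 : ℝ, ∀ H : ℝ, H0 ≤ H →
      (1 / 2 : ℝ) * (1 / (2 * Q)) ^ Fintype.card B * ∏ β, (H * (hi β - lo β)) ≤
        Nat.card {c : B → ℤ // (∀ β, H * lo β ≤ c β ∧ (c β : ℝ) ≤ H * hi β) ∧ Good c} := by
  classical
  have hQr : (0 : ℝ) < Q := by exact_mod_cast hQ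
  -- a lower bound for the sides
  obtain ⟨l, hl0, hl⟩ : ∃ l : ℝ, 0 < l ∧ ∀ β, l ≤ hi β - lo β := by
    rcases isEmpty_or_nonempty B with h | h
    · exact ⟨1, one_pos, fun β => (IsEmpty.false β).elim⟩
    · obtain ⟨β0, -, h0⟩ := Finset.exists_min_image (Finset.univ : Finset B)
        (fun β => hi β - lo β) Finset.univ_nonempty
      exact ⟨hi β0 - lo β0, sub_pos.mpr (hlh β0), fun β => h0 β (Finset.mem_univ β)⟩
  obtain ⟨ε, hε, hε0⟩ : ∃ ε : ℝ, ε = l / (4 * Q) ∧ 0 < ε := ⟨_, rfl, by positivity⟩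
  obtain ⟨U, hU⟩ : ∃ U : ℝ, U = ∑ β, (|lo β| + |hi β| + |(c0 β : ℝ)|) := ⟨_, rfl⟩
  have hU0 : 0 ≤ U := by rw [hU]; positivity
  have hUβ : ∀ β, |lo β| + |hi β| + |(c0 β : ℝ)| ≤ U := by
    intro β
    rw [hU]
    exact Finset.single_le_sum (f := fun β => |lo β| + |hi β| + |(c0 β : ℝ)|)
      (fun β _ => by positivity) (Finset.mem_univ β)
  obtain ⟨K, hK⟩ : ∃ K : ℕ, (2 / ε) * U + U + 1 ≤ K := exists_nat_ge _
  obtain ⟨s0, hs0⟩ := hG K
  refine ⟨max 1 (max (4 * Q / l) ((s0 + 2) / ε)), fun H hH => ?_⟩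
  have hH1 : 1 ≤ H := (le_max_left _ _).trans hH
  have hH2 : 4 * Q / l ≤ H := (le_max_left _ _).trans ((le_max_right _ _).trans hH)
  have hH3 : (s0 + 2) / ε ≤ H := (le_max_right _ _).trans ((le_max_right _ _).trans hH)
  have hH0 : 0 < H := by linarith
  obtain ⟨s, hs⟩ : ∃ s : ℕ, s = ⌊ε * H⌋₊ := ⟨_, rfl⟩
  have hεH : (s0 : ℝ) + 2 ≤ ε * H := by
    rw [div_le_iff₀ hε0] at hH3
    linarith
  have hs_le : (s : ℝ) ≤ ε * H := by rw [hs]; exact Nat.floor_le (by positivity)
  have hs_lt : ε * H < s + 1 := by rw [hs]; exact Nat.lt_floor_add_one _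
  have hss0 : s0 ≤ s := by
    have : (s0 : ℝ) < s := by linarith
    exact_mod_cast this.le
  have hs1 : (1 : ℝ) ≤ s := by
    have : (0 : ℝ) ≤ s0 := by positivity
    linarith
  have hs1' : 1 ≤ s := by exact_mod_cast hs1
  have hHs : H ≤ (2 / ε) * s := by
    rw [div_mul_eq_mul_div, le_div_iff₀ hε0]
    linarith
  -- the progressions
  obtain ⟨A, hA⟩ : ∃ A : B → ℤ, ∀ β, A β = ⌈(H * lo β - c0 β) / Q⌉ := ⟨_, fun _ => rfl⟩
  obtain ⟨R, hR⟩ : ∃ R : B → ℝ, ∀ β, R β = (H * hi β - c0 β) / Q := ⟨_, fun _ => rfl⟩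
  obtain ⟨k, hk⟩ : ∃ k : B → ℕ, ∀ β, k β = ⌊(R β - A β) / s⌋₊ := ⟨_, fun _ => rfl⟩
  have hA1 : ∀ β, (H * lo β - c0 β) / Q ≤ A β := fun β => by rw [hA]; exact Int.le_ceil _
  have hA2 : ∀ β, (A β : ℝ) < (H * lo β - c0 β) / Q + 1 := fun β => by
    rw [hA]; exact Int.ceil_lt_add_one _
  have hRA : ∀ β, H * (hi β - lo β) / Q - 1 ≤ R β - A β := by
    intro β
    have h1 := hA2 β
    have h2 : R β = (H * lo β - c0 β) / Q + H * (hi β - lo β) / Q := by
      rw [hR]; field_simp; ring
    linarith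
  have hLQ : ∀ β, s + 1 ≤ H * (hi β - lo β) / (2 * Q) := by
    intro β
    have h1 : H * l / (2 * Q) ≤ H * (hi β - lo β) / (2 * Q) := by
      gcongr
      exact hl β
    have h2 : H * l / (2 * Q) = ε * H + H * l / (4 * Q) := by
      rw [hε]; field_simp; ring
    have h3 : 1 ≤ H * l / (4 * Q) := by
      rw [le_div_iff₀ (by positivity)]
      rw [div_le_iff₀ hl0] at hH2
      linarith
    linarith
  have hRA0 : ∀ β, 0 ≤ R β - A β := by
    intro β
    have h1 := hRA β
    have h2 := hLQ β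
    have h3 : H * (hi β - lo β) / Q = 2 * (H * (hi β - lo β) / (2 * Q)) := by field_simp
    linarith
  have hks : ∀ β, (k β : ℝ) * s ≤ R β - A β := by
    intro β
    have h1 : (k β : ℝ) ≤ (R β - A β) / s := by
      rw [hk]; exact Nat.floor_le (div_nonneg (hRA0 β) (by linarith))
    rwa [le_div_iff₀ (by linarith)] at h1
  have hks2 : ∀ β, H * (hi β - lo β) / (2 * Q) ≤ (k β : ℝ) * s := by
    intro β
    have h1 : (R β - A β) / s < k β + 1 := by rw [hk]; exact Nat.lt_floor_add_one _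
    rw [div_lt_iff₀ (by linarith)] at h1
    have h2 := hRA β
    have h3 := hLQ β
    have h4 : H * (hi β - lo β) / Q = 2 * (H * (hi β - lo β) / (2 * Q)) := by field_simp
    linarith
  have hAK : ∀ β, ∀ j : ℕ, j < k β → |(A β + j * s : ℤ)| ≤ K * s := by
    intro β j hj
    have h1 : ((A β + j * s : ℤ) : ℝ) ≤ R β := by
      push_cast
      have h2 : (j : ℝ) * s ≤ k β * s := by
        have : (j : ℝ) ≤ k β := by exact_mod_cast hj.le
        nlinarith
      have := hks β
      linarith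
    have h2 : (A β : ℝ) ≤ ((A β + j * s : ℤ) : ℝ) := by
      push_cast
      have : (0 : ℝ) ≤ (j : ℝ) * s := by positivity
      linarith
    have hQ1 : (1 : ℝ) ≤ Q := by exact_mod_cast hQ
    have hx : ∀ x : ℝ, |x| ≤ |lo β| + |hi β| → |(H * x - c0 β) / Q| ≤ K * s := by
      intro x hx
      rw [abs_div, abs_of_pos hQr, div_le_iff₀ hQr]
      have h3 : |H * x - c0 β| ≤ H * |x| + |(c0 β : ℝ)| := by
        refine (abs_sub _ _).trans ?_
        rw [abs_mul, abs_of_pos hH0]
      have h4 : |x| ≤ U := by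
        have := hUβ β
        have := abs_nonneg (c0 β : ℝ)
        linarith
      have h5 : |(c0 β : ℝ)| ≤ U := by
        have := hUβ β
        have := abs_nonneg (lo β)
        have := abs_nonneg (hi β)
        linarith
      have h6 : H * |x| ≤ ((2 / ε) * s) * U :=
        mul_le_mul hHs h4 (abs_nonneg _) (by positivity)
      have h7 : U ≤ U * s := by nlinarith
      have h8 : ((2 / ε) * U + U + 1) * s ≤ K * s := mul_le_mul_of_nonneg_right hK (by linarith)
      have h9 : (K : ℝ) * s ≤ K * s * Q := by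
        have : (0 : ℝ) ≤ K * s := by positivity
        nlinarith
      nlinarith
    have h3 := abs_le.mp (hx (lo β) (by have := abs_nonneg (hi β); linarith))
    have h4 := abs_le.mp (hx (hi β) (by have := abs_nonneg (lo β); linarith))
    have h5 : |((A β + j * s : ℤ) : ℝ)| ≤ K * s := by
      rw [abs_le]
      constructor
      · have := hA1 β
        linarith
      · rw [← hR] at h4
        linarith
    exact_mod_cast h5
  -- the finite sets
  have hex : ∀ j : B → ℕ, ∃ E : Finset (B → ℤ), j ∈ (Fintype.piFinset fun β => Finset.range (k β)) →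
      ((∀ c ∈ E, c ∈ (Fintype.piFinset fun β => ap (c0 β) Q (A β + j β * s) s) ∧
        Good c) ∧ s ^ Fintype.card B ≤ 2 * E.card) := by
    intro j
    by_cases hj : j ∈ (Fintype.piFinset fun β => Finset.range (k β))
    · rw [Fintype.mem_piFinset] at hj
      obtain ⟨E, hE⟩ := hs0 s hss0 (fun β => A β + j β * s)
        (fun β => hAK β (j β) (Finset.mem_range.mp (hj β)))
      exact ⟨E, fun _ => hE⟩
    · exact ⟨∅, fun h => absurd h hj⟩
  choose E hE using hex
  obtain ⟨T, hT⟩ : ∃ T : Finset (B → ℤ), ∀ c, c ∈ T ↔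
      ((∀ β, H * lo β ≤ c β ∧ (c β : ℝ) ≤ H * hi β) ∧ Good c) := by
    refine ⟨(Fintype.piFinset fun β => Finset.Icc ⌈H * lo β⌉ ⌊H * hi β⌋).filter Good, fun c => ?_⟩
    rw [Finset.mem_filter, Fintype.mem_piFinset]
    simp only [Finset.mem_Icc, Int.ceil_le, Int.le_floor]
  rw [Nat.subtype_card T hT]
  have hinj : ((Fintype.piFinset fun β => Finset.range (k β)).sigma E).card ≤ T.card := by
    refine Finset.card_le_card_of_injOn (fun x => x.2) ?_ ?_
    · rintro ⟨j, c⟩ hx
      rw [Finset.mem_coe, Finset.mem_sigma] at hx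
      obtain ⟨hj, hc⟩ := hx
      have hc' := ((hE j hj).1 c hc).1
      rw [Fintype.mem_piFinset] at hc' hj
      rw [Finset.mem_coe, hT]
      refine ⟨fun β => ?_, ((hE j (Fintype.mem_piFinset.mpr hj)).1 c hc).2⟩
      obtain ⟨y, hy1, hy2, hy⟩ := mem_ap.mp (hc' β)
      have hjk : j β + 1 ≤ k β := Finset.mem_range.mp (hj β)
      have h1 : (A β : ℝ) ≤ y := by
        have : A β ≤ y := le_trans (by
          have : (0 : ℤ) ≤ (j β : ℤ) * s := by positivity
          linarith) hy1
        exact_mod_cast this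
      have h2 : (y : ℝ) ≤ R β := by
        have h3 : (y : ℝ) ≤ A β + j β * s + s := by exact_mod_cast hy2.le
        have h4 : ((j β : ℝ) + 1) * s ≤ k β * s := by
          have : (j β : ℝ) + 1 ≤ k β := by exact_mod_cast hjk
          nlinarith
        have := hks β
        linarith
      show H * lo β ≤ (c β : ℝ) ∧ (c β : ℝ) ≤ H * hi β
      rw [← hy]
      push_cast
      constructor
      · have h3 := (hA1 β).trans h1
        rw [div_le_iff₀ hQr] at h3
        linarith
      · rw [hR, le_div_iff₀ hQr] at h2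
        linarith
    · rintro ⟨j, c⟩ hx ⟨j', c'⟩ hx' h
      rw [Finset.mem_coe, Finset.mem_sigma] at hx hx'
      have h' : c = c' := h
      subst h'
      have hj : j = j' := by
        funext β
        have h1 := Fintype.mem_piFinset.mp ((hE j hx.1).1 c hx.2).1 β
        have h2 := Fintype.mem_piFinset.mp ((hE j' hx'.1).1 c hx'.2).1 β
        obtain ⟨y, hy1, hy2, hy⟩ := mem_ap.mp h1
        obtain ⟨y', hy1', hy2', hy'⟩ := mem_ap.mp h2
        have h3 : y = y' := by
          have : Q * y = Q * y' := by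
            rw [← hy'] at hy
            exact add_left_cancel hy
          exact mul_left_cancel₀ hQ.ne' this
        subst h3
        have hsZ : (0 : ℤ) < s := by exact_mod_cast hs1'
        have h4 : ((j β : ℤ)) * s < (j' β + 1) * s := by linarith
        have h5 : ((j' β : ℤ)) * s < (j β + 1) * s := by linarith
        have h6 := lt_of_mul_lt_mul_right h4 hsZ.le
        have h7 := lt_of_mul_lt_mul_right h5 hsZ.le
        omega
      rw [hj]
  have hsum : (∏ β, k β) * s ^ Fintype.card B ≤ 2 * T.card := by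
    refine le_trans ?_ (Nat.mul_le_mul_left 2 hinj)
    rw [Finset.card_sigma, Finset.mul_sum]
    have h1 : (Fintype.piFinset fun β => Finset.range (k β)).card = ∏ β, k β := by
      rw [Fintype.card_piFinset]; simp
    rw [← h1, ← smul_eq_mul]
    exact Finset.card_nsmul_le_sum _ _ _ fun j hj => (hE j hj).2
  have h1 : ((∏ β, (k β : ℝ)) * s ^ Fintype.card B) ≤ 2 * T.card := by exact_mod_cast hsum
  have h2 : (∏ β, (H * (hi β - lo β) / (2 * Q))) ≤ (∏ β, (k β : ℝ)) * s ^ Fintype.card B := by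
    rw [← Finset.card_univ, ← Finset.prod_const, ← Finset.prod_mul_distrib]
    refine Finset.prod_le_prod (fun β _ => ?_) fun β _ => hks2 β
    have := hLQ β
    linarith
  have h3 : (∏ β, (H * (hi β - lo β) / (2 * (Q : ℝ)))) =
      (1 / (2 * Q)) ^ Fintype.card B * ∏ β, (H * (hi β - lo β)) := by
    rw [← Finset.card_univ, ← Finset.prod_const, ← Finset.prod_mul_distrib]
    refine Finset.prod_congr rfl fun β _ => ?_
    ring
  rw [h3] at h2
  linarith

end Pool.Agent.H97.PP
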