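import Pool.Agent.H97.PP.Aff

/-!
# Two elimination polynomials
-/

set_option autoImplicit false

namespace Pool.Agent.H97.PP

open MvPolynomial

section Basic

variable {R : Type} [CommRing R] {n d : ℕ}

theorem totalDegree_pderiv_le' (j : Fin n) (f : MvPolynomial (Fin n) R) :
    (pderiv j f).totalDegree ≤ f.totalDegree - 1 := by
  classical
  rw [f.as_sum, map_sum]
  refine totalDegree_finsetSum_le fun m hm => ?_
  rw [pderiv_monomial]
  by_cases hmj : m j = 0
  · rw [hmj, Nat.cast_zero, mul_zero, monomial_zero, totalDegree_zero]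
    exact Nat.zero_le _
  · refine (totalDegree_monomial_le _ _).trans ?_
    rw [← f.as_sum]
    have h1 : (m - Finsupp.single j 1) + Finsupp.single j 1 = m :=
      tsub_add_cancel_of_le (by
        rw [Finsupp.single_le_iff]; omega)
    have h2 := le_totalDegree hm
    have h3 : (m.sum fun _ e => e) = ((m - Finsupp.single j 1).sum fun _ e => e) + 1 := by
      conv_lhs => rw [← h1]
      rw [Finsupp.sum_add_index' (fun _ => rfl) (fun _ _ _ => rfl), Finsupp.sum_single_index rfl]
    show ((m - Finsupp.single j 1).sum fun _ e => e) ≤ _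
    omega

theorem totalDegree_pderiv_aff_le (j : Fin n) (c : AMon n d → R) :
    (pderiv j (aff c)).totalDegree ≤ d - 1 :=
  (totalDegree_pderiv_le' j _).trans (Nat.sub_le_sub_right (totalDegree_aff_le c) 1)

theorem totalDegree_hess_aff_le (c : AMon n d → R) :
    (hess (aff c)).totalDegree ≤ n * d :=
  (totalDegree_hess_le _).trans (Nat.mul_le_mul_left _ (totalDegree_aff_le c))

/-- The coefficient of a monomial. -/
noncomputable def co (f : MvPolynomial (Fin n) R) (α : Fin n → ℕ) : R :=
  coeff (Finsupp.equivFunOnFinite.symm α) f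

theorem co_mono (α β : Fin n → ℕ) [Decidable (α = β)] :
    co (mono R α) β = if α = β then 1 else 0 := by
  classical
  rw [co, mono, coeff_monomial]
  by_cases h : α = β
  · rw [if_pos (by rw [h]), if_pos h]
  · rw [if_neg (fun h' => h (Finsupp.equivFunOnFinite.symm.injective h')), if_neg h]

theorem co_add (f g : MvPolynomial (Fin n) R) (α : Fin n → ℕ) :
    co (f + g) α = co f α + co g α := coeff_add _ _ _

theorem co_C_mul (r : R) (f : MvPolynomial (Fin n) R) (α : Fin n → ℕ) :
    co (C r * f) α = r * co f α := coeff_C_mul _ _ _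

theorem co_sum {ι : Type} (s : Finset ι) (f : ι → MvPolynomial (Fin n) R) (α : Fin n → ℕ) :
    co (∑ i ∈ s, f i) α = ∑ i ∈ s, co (f i) α := coeff_sum _ _ _

theorem co_map {R' : Type} [CommRing R'] (φ : R →+* R') (f : MvPolynomial (Fin n) R)
    (α : Fin n → ℕ) : co (map φ f) α = φ (co f α) := coeff_map _ _ _

theorem ext_co {f g : MvPolynomial (Fin n) R} (h : ∀ α, co f α = co g α) : f = g := by
  ext m
  have := h m
  rwa [co, co, show (Finsupp.equivFunOnFinite.symm (m : Fin n → ℕ)) = m from
    Finsupp.equivFunOnFinite.symm_apply_apply m] at this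

theorem co_eq_zero_of_totalDegree_lt {f : MvPolynomial (Fin n) R} {α : Fin n → ℕ}
    (h : f.totalDegree < ∑ i, α i) : co f α = 0 := by
  refine coeff_eq_zero_of_totalDegree_lt ?_
  convert h using 1
  rw [Finset.sum_subset (Finset.subset_univ _)]
  · rfl
  · intro i _ hi
    exact Finsupp.notMem_support_iff.mp hi

theorem totalDegree_le_of_co {f : MvPolynomial (Fin n) R} {D : ℕ}
    (h : ∀ α : Fin n → ℕ, D < ∑ i, α i → co f α = 0) : f.totalDegree ≤ D := by
  rw [totalDegree, Finset.sup_le_iff]
  intro m hm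
  by_contra hcon
  rw [not_le] at hcon
  have h1 : co f m = 0 := by
    apply h
    rwa [Finsupp.sum_fintype _ _ (fun _ => rfl)] at hcon
  rw [co, show (Finsupp.equivFunOnFinite.symm (m : Fin n → ℕ)) = m from
    Finsupp.equivFunOnFinite.symm_apply_apply m] at h1
  exact (mem_support_iff.mp hm) h1

theorem mono_add (α β : Fin n → ℕ) : mono R (α + β) = mono R α * mono R β := by
  rw [mono, mono, mono, monomial_mul, one_mul]
  have : Finsupp.equivFunOnFinite.symm (α + β) =
      Finsupp.equivFunOnFinite.symm α + Finsupp.equivFunOnFinite.symm β := by ext; rfl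
  rw [this]

theorem mono_zero : mono R (0 : Fin n → ℕ) = 1 := by
  have : (Finsupp.equivFunOnFinite.symm (0 : Fin n → ℕ)) = 0 := by ext; rfl
  rw [mono, this]; rfl

theorem mono_single (j : Fin n) (e : ℕ) : mono R (Pi.single j e) = X j ^ e := by
  have : (Finsupp.equivFunOnFinite.symm (Pi.single j e : Fin n → ℕ)) = Finsupp.single j e := by
    ext i
    rw [Finsupp.single_eq_pi_single]
    rfl
  rw [mono, this, X_pow_eq_monomial]

theorem aff_as_sum (f : MvPolynomial (Fin n) R) (D : ℕ) (hf : f.totalDegree ≤ D) :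
    f = aff (fun α : AMon n D => co f α.1) := by
  classical
  apply ext_co
  intro β
  rw [aff, co_sum]
  simp only [co_C_mul, co_mono]
  by_cases hβ : β ∈ monLE n D
  · rw [Finset.sum_eq_single ⟨β, hβ⟩]
    · simp
    · rintro ⟨α, hα⟩ _ hne
      rw [if_neg (fun h => hne (Subtype.ext h)), mul_zero]
    · intro h; exact absurd (Finset.mem_univ _) h
  · rw [Finset.sum_eq_zero, co_eq_zero_of_totalDegree_lt]
    · rw [mem_monLE, not_le] at hβ
      exact lt_of_le_of_lt hf hβ
    · rintro ⟨α, hα⟩ _
      rw [if_neg (fun h : α = β => hβ (h ▸ hα)), mul_zero]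

end Basic

theorem exists_comb {k : Type} [Field k] {V : Type} [Fintype V] [DecidableEq V]
    (M : Matrix V V k) (hM : M.det ≠ 0) (v : V) :
    ∃ x : V → k, ∀ v', ∑ ν, M v' ν * x ν = if v' = v then 1 else 0 := by
  refine ⟨fun ν => M⁻¹ ν v, fun v' => ?_⟩
  have h1 : M * M⁻¹ = 1 := Matrix.mul_nonsing_inv M (isUnit_iff_ne_zero.mpr hM)
  have h2 := congrFun (congrFun h1 v') v
  rwa [Matrix.mul_apply, Matrix.one_apply] at h2

end Pool.Agent.H97.PP
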