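import Pool.Agent.H97.PP.Elim

/-!
# The elimination polynomial `L`: finiteness of the critical scheme
-/

set_option autoImplicit false

namespace Pool.Agent.H97.PP

open MvPolynomial

/-- Exponents of total degree exactly `e`. -/
abbrev HMon (n e : ℕ) : Type := ↥((monLE n e).filter fun α => ∑ i, α i = e)

theorem HMon.sum_eq {n e : ℕ} (α : HMon n e) : ∑ i, α.1 i = e := (Finset.mem_filter.mp α.2).2

theorem exists_le_sum_eq {n : ℕ} (e : ℕ) : ∀ (m : ℕ) (α : Fin n → ℕ), ∑ i, α i = e + m →
    ∃ ν : Fin n → ℕ, ν ≤ α ∧ ∑ i, ν i = e := by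
  intro m
  induction m with
  | zero => exact fun α hα => ⟨α, le_rfl, hα⟩
  | succ m ih =>
    intro α hα
    have hex : ∃ j, 0 < α j := by
      by_contra hcon
      push Not at hcon
      have : ∑ i, α i = 0 := Finset.sum_eq_zero fun i _ => Nat.le_zero.mp (hcon i)
      omega
    obtain ⟨j, hj⟩ := hex
    classical
    have h1 : (α - Pi.single j 1) + Pi.single j 1 = α := by
      funext i
      by_cases hij : i = j
      · subst hij; simp; omega
      · simp [hij]
    have h2 : ∑ i, (α - Pi.single j 1 : Fin n → ℕ) i = e + m := by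
      have h3 : ∑ i, α i = ∑ i, (α - Pi.single j 1 : Fin n → ℕ) i + ∑ i, (Pi.single j 1 : Fin n → ℕ) i := by
        rw [← Finset.sum_add_distrib]
        exact Finset.sum_congr rfl fun i _ => by rw [← Pi.add_apply, h1]
      rw [Finset.sum_pi_single' j 1 Finset.univ] at h3
      simp only [Finset.mem_univ, if_true] at h3
      omega
    obtain ⟨ν, hν, hνs⟩ := ih _ h2
    exact ⟨ν, hν.trans tsub_le_self, hνs⟩

section

variable {n d : ℕ}

/-- Pigeonhole. -/
theorem exists_big (hd : 2 ≤ d) (α : Fin n → ℕ) (hα : n * (d - 2) + 1 ≤ ∑ i, α i) :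
    ∃ j, d - 1 ≤ α j := by
  by_contra hcon
  push Not at hcon
  have h1 : ∑ i, α i ≤ ∑ _i : Fin n, (d - 2) :=
    Finset.sum_le_sum fun i _ => by have := hcon i; omega
  rw [Finset.sum_const, Finset.card_univ, Fintype.card_fin, smul_eq_mul] at h1
  omega

/-- A variable occurring with exponent `≥ d - 1`. -/
noncomputable def jj (hd : 2 ≤ d) (α : HMon n (n * (d - 2) + 1)) : Fin n :=
  (exists_big hd α.1 α.sum_eq.ge).choose

theorem jj_spec (hd : 2 ≤ d) (α : HMon n (n * (d - 2) + 1)) : d - 1 ≤ α.1 (jj hd α) :=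
  (exists_big hd α.1 α.sum_eq.ge).choose_spec

theorem sub_single_add {α : Fin n → ℕ} {j : Fin n} {e : ℕ} (h : e ≤ α j) :
    (α - Pi.single j e) + Pi.single j e = α := by
  funext i
  by_cases hij : i = j
  · subst hij; simp; omega
  · simp [hij]

theorem sum_sub_single {α : Fin n → ℕ} {j : Fin n} {e : ℕ} (h : e ≤ α j) :
    ∑ i, (α - Pi.single j e : Fin n → ℕ) i + e = ∑ i, α i := by
  conv_rhs => rw [← sub_single_add h]
  rw [show ∑ i, ((α - Pi.single j e) + Pi.single j e : Fin n → ℕ) i =
    ∑ i, (α - Pi.single j e : Fin n → ℕ) i + ∑ i, (Pi.single j e : Fin n → ℕ) i from Finset.sum_add_distrib,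
    Finset.sum_pi_single' j e Finset.univ]
  simp

section Ring

variable {R : Type} [CommRing R]

/-- The test elements of the Jacobian ideal. -/
noncomputable def psiL (hd : 2 ≤ d) (c : AMon n d → R) (ν : HMon n (n * (d - 2) + 1)) :
    MvPolynomial (Fin n) R :=
  mono R (ν.1 - Pi.single (jj hd ν) (d - 1)) * pderiv (jj hd ν) (aff c)

theorem totalDegree_psiL_le (hd : 2 ≤ d) (c : AMon n d → R) (ν : HMon n (n * (d - 2) + 1)) :
    (psiL hd c ν).totalDegree ≤ n * (d - 2) + 1 := by
  refine (totalDegree_mul _ _).trans ?_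
  have h1 := totalDegree_mono_le (R := R) (ν.1 - Pi.single (jj hd ν) (d - 1))
  have h2 := totalDegree_pderiv_aff_le (jj hd ν) c
  have h3 := sum_sub_single (jj_spec hd ν)
  have h4 := ν.sum_eq
  omega

/-- The matrix of leading coefficients. -/
noncomputable def matL (hd : 2 ≤ d) (c : AMon n d → R) :
    Matrix (HMon n (n * (d - 2) + 1)) (HMon n (n * (d - 2) + 1)) R :=
  Matrix.of fun ν' ν => co (psiL hd c ν) ν'.1

theorem map_psiL {R' : Type} [CommRing R'] (φ : R →+* R') (hd : 2 ≤ d) (c : AMon n d → R)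
    (ν : HMon n (n * (d - 2) + 1)) : map φ (psiL hd c ν) = psiL hd (fun α => φ (c α)) ν := by
  rw [psiL, psiL, map_mul, map_mono, ← pderiv_map, map_aff]

theorem map_matL {R' : Type} [CommRing R'] (φ : R →+* R') (hd : 2 ≤ d) (c : AMon n d → R) :
    φ (matL hd c).det = (matL hd fun α => φ (c α)).det := by
  rw [RingHom.map_det]
  congr 1
  ext ν' ν : 2
  simp only [RingHom.mapMatrix_apply, Matrix.map_apply, matL, Matrix.of_apply]
  rw [← co_map, map_psiL]

theorem matL_congr (hd : 2 ≤ d) (c c' : AMon n d → R)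
    (h : ∀ α : AMon n d, ∑ i, α.1 i = d → c α = c' α) : matL hd c = matL hd c' := by
  ext ν' ν
  rw [matL, matL, Matrix.of_apply, Matrix.of_apply, ← sub_eq_zero]
  have h1 : psiL hd c ν = psiL hd c' ν + mono R (ν.1 - Pi.single (jj hd ν) (d - 1)) *
      pderiv (jj hd ν) (aff (c - c')) := by
    have : aff c = aff c' + aff (c - c') := by
      rw [← aff_add]; congr 1; funext α; simp
    rw [psiL, psiL, this, map_add, mul_add]
  rw [h1, co_add, add_sub_cancel_left]
  apply co_eq_zero_of_totalDegree_lt
  rw [ν'.sum_eq]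
  have h2 : (aff (c - c')).totalDegree ≤ d - 1 := by
    apply totalDegree_le_of_co
    intro α hα
    rw [aff, co_sum]
    refine Finset.sum_eq_zero fun β _ => ?_
    classical
    rw [co_C_mul, co_mono]
    by_cases hβ : β.1 = α
    · have h3 := mem_monLE.mp β.2
      rw [hβ] at h3
      have h4 : ∑ i, β.1 i = d := by rw [hβ]; omega
      rw [Pi.sub_apply, h β h4, sub_self, zero_mul]
    · rw [if_neg hβ, mul_zero]
  have h3 := totalDegree_pderiv_le' (jj hd ν) (aff (c - c'))
  have h4 := totalDegree_mono_le (R := R) (ν.1 - Pi.single (jj hd ν) (d - 1))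
  have h5 := sum_sub_single (jj_spec hd ν)
  have h6 := ν.sum_eq
  have h7 := totalDegree_mul (mono R (ν.1 - Pi.single (jj hd ν) (d - 1)))
    (pderiv (jj hd ν) (aff (c - c')))
  omega

end Ring

/-- The polynomial `L`. -/
noncomputable def polL (n : ℕ) {d : ℕ} (hd : 2 ≤ d) : MvPolynomial (AMon n d) ℤ :=
  (matL (n := n) hd fun α => X α).det

theorem aeval_polL {R : Type} [CommRing R] (hd : 2 ≤ d) (c : AMon n d → R) :
    aeval c (polL n hd) = (matL hd c).det := by
  have h := map_matL (aeval c : MvPolynomial (AMon n d) ℤ →ₐ[ℤ] R).toRingHom hd (fun α => X α)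
  have h2 : (fun α => (aeval c : MvPolynomial (AMon n d) ℤ →ₐ[ℤ] R).toRingHom (X α)) = c := by
    funext α
    exact aeval_X c α
  rw [h2] at h
  exact h

theorem polL_ne_zero (hd : 2 ≤ d) : polL n hd ≠ 0 := by
  classical
  intro h0
  let f : MvPolynomial (Fin n) ℤ := ∑ j, X j ^ d
  have hf : f.totalDegree ≤ d := by
    refine totalDegree_finsetSum_le fun j _ => ?_
    rw [totalDegree_X_pow]
  let c : AMon n d → ℤ := fun α => co f α.1
  have hc : aff c = f := (aff_as_sum f d hf).symm
  have h1 := aeval_polL hd c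
  rw [h0, map_zero] at h1
  have h2 : matL hd c = Matrix.diagonal fun _ => (d : ℤ) := by
    ext ν' ν
    rw [matL, Matrix.of_apply, psiL, hc]
    have h3 : pderiv (jj hd ν) f = C (d : ℤ) * mono ℤ (Pi.single (jj hd ν) (d - 1)) := by
      rw [map_sum, Finset.sum_eq_single (jj hd ν), pderiv_pow, pderiv_X_self, mul_one, mono_single]
      · simp
      · intro j _ hj
        rw [pderiv_pow, pderiv_X_of_ne hj, mul_zero]
      · intro h; exact absurd (Finset.mem_univ _) h
    rw [h3, mul_left_comm, ← mono_add, sub_single_add (jj_spec hd ν), co_C_mul, co_mono,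
      Matrix.diagonal_apply]
    by_cases hν : ν' = ν
    · rw [if_pos hν, if_pos (by rw [hν]), mul_one]
    · rw [if_neg hν, if_neg (fun h => hν (Subtype.ext h.symm)), mul_zero]
  rw [h2, Matrix.det_diagonal, Finset.prod_const] at h1
  exact pow_ne_zero _ (by exact_mod_cast (by omega : d ≠ 0)) h1.symm

section Field

variable {k : Type} [Field k]

/-- Every polynomial is congruent to one of small degree modulo the Jacobian ideal. -/
theorem exists_reduce (hd : 2 ≤ d) (c : AMon n d → k) (hc : (matL hd c).det ≠ 0) :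
    ∀ (D : ℕ) (q : MvPolynomial (Fin n) k), q.totalDegree ≤ D →
      ∃ r : MvPolynomial (Fin n) k, r.totalDegree ≤ n * (d - 2) ∧
        q - r ∈ Ideal.span (Set.range fun j => pderiv j (aff c)) := by
  classical
  set I := Ideal.span (Set.range fun j => pderiv j (aff c)) with hI
  have hpsi : ∀ ν, psiL hd c ν ∈ I := fun ν =>
    Ideal.mul_mem_left _ _ (Ideal.subset_span ⟨jj hd ν, rfl⟩)
  -- the elements with leading form a monomial
  have hlead : ∀ ν : HMon n (n * (d - 2) + 1), ∃ i ∈ I, (mono k ν.1 - i).totalDegree ≤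
      n * (d - 2) := by
    intro ν
    obtain ⟨x, hx⟩ := exists_comb _ hc ν
    refine ⟨∑ μ, C (x μ) * psiL hd c μ, Ideal.sum_mem _ fun μ _ =>
      Ideal.mul_mem_left _ _ (hpsi μ), ?_⟩
    apply totalDegree_le_of_co
    intro α hα
    rw [sub_eq_add_neg, co_add]
    have hneg : ∀ f : MvPolynomial (Fin n) k, co (-f) α = -co f α := fun f => coeff_neg _ _ _
    rw [hneg, co_sum]
    by_cases hα2 : ∑ i, α i = n * (d - 2) + 1
    · have hmem : α ∈ (monLE n (n * (d - 2) + 1)).filter
          fun α => ∑ i, α i = n * (d - 2) + 1 :=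
        Finset.mem_filter.mpr ⟨mem_monLE.mpr hα2.le, hα2⟩
      have h1 := hx ⟨α, hmem⟩
      have h2 : ∑ μ, co (C (x μ) * psiL hd c μ) α = if (⟨α, hmem⟩ : HMon n _) = ν then 1 else 0 := by
        rw [← h1]
        refine Finset.sum_congr rfl fun μ _ => ?_
        rw [co_C_mul, matL, Matrix.of_apply, mul_comm]
      rw [h2, co_mono]
      by_cases h3 : ν.1 = α
      · rw [if_pos h3, if_pos (Subtype.ext h3.symm)]; ring
      · rw [if_neg h3, if_neg (fun h => h3 (congrArg Subtype.val h).symm)]; ring
    · rw [Finset.sum_eq_zero, neg_zero, add_zero]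
      · apply co_eq_zero_of_totalDegree_lt
        refine lt_of_le_of_lt (totalDegree_mono_le ν.1) ?_
        rw [ν.sum_eq]; omega
      · intro μ _
        rw [co_C_mul, co_eq_zero_of_totalDegree_lt, mul_zero]
        refine lt_of_le_of_lt (totalDegree_psiL_le hd c μ) ?_
        omega
  intro D
  induction D with
  | zero =>
    intro q hq
    exact ⟨q, by omega, by rw [sub_self]; exact I.zero_mem⟩
  | succ D ih =>
    intro q hq
    have hmono : ∀ α : AMon n (D + 1), ∃ r : MvPolynomial (Fin n) k,
        r.totalDegree ≤ n * (d - 2) ∧ mono k α.1 - r ∈ I := by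
      intro α
      by_cases hα : ∑ i, α.1 i ≤ n * (d - 2)
      · exact ⟨mono k α.1, (totalDegree_mono_le _).trans hα, by rw [sub_self]; exact I.zero_mem⟩
      · obtain ⟨m, hm⟩ := Nat.exists_eq_add_of_le (show n * (d - 2) + 1 ≤ ∑ i, α.1 i by omega)
        obtain ⟨ν, hν, hνs⟩ := exists_le_sum_eq _ m α.1 hm
        have hmem : ν ∈ (monLE n (n * (d - 2) + 1)).filter
            fun α => ∑ i, α i = n * (d - 2) + 1 :=
          Finset.mem_filter.mpr ⟨mem_monLE.mpr hνs.le, hνs⟩
        obtain ⟨i, hi, hideg⟩ := hlead ⟨ν, hmem⟩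
        have hαν : α.1 = (α.1 - ν) + ν := by
          funext j
          have hj : ν j ≤ α.1 j := hν j
          simp only [Pi.add_apply, Pi.sub_apply]
          omega
        have hsum : ∑ j, (α.1 - ν : Fin n → ℕ) j + (n * (d - 2) + 1) = ∑ j, α.1 j := by
          conv_rhs => rw [hαν]
          rw [show ∑ j, ((α.1 - ν) + ν : Fin n → ℕ) j = ∑ j, (α.1 - ν : Fin n → ℕ) j + ∑ j, ν j from
            Finset.sum_add_distrib, hνs]
        have hαD := mem_monLE.mp α.2
        obtain ⟨r, hr, hrI⟩ := ih (mono k (α.1 - ν) * (mono k ν - i)) (by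
          have h1 := totalDegree_mul (mono k (α.1 - ν)) (mono k ν - i)
          have h2 := totalDegree_mono_le (R := k) (α.1 - ν)
          have h3 : (mono k ν - i).totalDegree ≤ n * (d - 2) := hideg
          omega)
        refine ⟨r, hr, ?_⟩
        have h3 : mono k α.1 - r = (mono k (α.1 - ν) * (mono k ν - i) - r) +
            mono k (α.1 - ν) * i := by
          conv_lhs => rw [hαν, mono_add]
          ring
        rw [h3]
        exact I.add_mem hrI (Ideal.mul_mem_left _ _ hi)
    choose r hr hrI using hmono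
    refine ⟨∑ α, C (co q α.1) * r α, ?_, ?_⟩
    · refine totalDegree_finsetSum_le fun α _ => ?_
      refine (totalDegree_mul _ _).trans ?_
      rw [totalDegree_C, zero_add]
      exact hr α
    · have h1 : q - ∑ α, C (co q α.1) * r α =
          ∑ α : AMon n (D + 1), C (co q α.1) * (mono k α.1 - r α) := by
        have h2 : q - ∑ α, C (co q α.1) * r α = aff (fun α : AMon n (D + 1) => co q α.1) -
            ∑ α, C (co q α.1) * r α := by rw [← aff_as_sum q (D + 1) hq]
        rw [h2, aff, ← Finset.sum_sub_distrib]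
        refine Finset.sum_congr rfl fun α _ => ?_
        ring
      rw [h1]
      exact Ideal.sum_mem _ fun α _ => Ideal.mul_mem_left _ _ (hrI α)

open Classical in
/-- If `L` does not vanish, there are boundedly many critical values. -/
theorem bad_const_card_le (hd : 2 ≤ d) (c : AMon n d → k) (hc : (matL hd c).det ≠ 0)
    (S : Finset k) :
    (S.filter fun y => Bad (Function.update c (idx (by omega) none) y)).card ≤
      (n * (d - 2) + 1) ^ n := by
  set E := S.filter fun y => Bad (Function.update c (idx (by omega) none) y) with hE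
  set z0 : AMon n d := idx (by omega) none with hz0
  have haff : ∀ y, aff (Function.update c z0 y) = aff c + C (y - c z0) := by
    intro y
    have h1 : Function.update c z0 y = c + Pi.single z0 (y - c z0) := by
      funext α
      by_cases h : α = z0
      · subst h; simp
      · simp [h]
    rw [h1, aff_add]
    congr 1
    rw [aff, Finset.sum_eq_single z0]
    · rw [Pi.single_eq_same, hz0, mono_idx_none, mul_one]
    · intro α _ hα
      rw [Pi.single_eq_of_ne hα, C_0, zero_mul]
    · intro h; exact absurd (Finset.mem_univ _) h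
  have hex : ∀ y : Unit → k, ∃ (L : Type) (_ : Field L) (_ : Algebra k L)
      (φ : MvPolynomial (Fin n) k →ₐ[k] L), y () ∈ E →
      (φ (C (c z0) - aff c) = algebraMap k L (y ()) ∧
      (∀ j, φ (pderiv j (aff c)) = 0)) := by
    intro y
    by_cases he : y () ∈ E
    · obtain ⟨L, i1, i2, φ, h1, h2, _⟩ := (Finset.mem_filter.mp he).2
      refine ⟨L, i1, i2, φ, fun _ => ⟨?_, fun j => ?_⟩⟩
      · rw [haff, map_add] at h1
        have hC : ∀ r : k, φ (C r) = algebraMap k L r := fun r => φ.commutes r
        rw [hC, map_sub] at h1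
        rw [map_sub, hC]
        linear_combination (-1 : L) * h1
      · have := h2 j
        rw [haff, map_add, pderiv_C, add_zero] at this
        exact this
    · exact ⟨k, inferInstance, inferInstance, aeval 0, fun h => absurd h he⟩
  choose L i1 i2 φ hφ using hex
  let E' : Finset (Unit → k) := E.map ⟨fun y _ => y, fun a b h => congrFun h ()⟩
  have hE' : ∀ e ∈ E', e () ∈ E := by
    intro e he
    rw [Finset.mem_map] at he
    obtain ⟨y, hy, rfl⟩ := he
    exact hy
  have hdual := dualFam_lag (fun _ : Unit => E) (fun _ => C (c z0) - aff c) E'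
    (fun e he _ => hE' e he) L φ (fun e he _ => (hφ e (hE' e he)).1)
  have hred := fun e : Unit → k => exists_reduce hd c hc _
    (lag (fun _ : Unit => E) (fun _ => C (c z0) - aff c) e) le_rfl
  choose r hr hrI using hred
  have hφr : ∀ e ∈ E', ∀ e', φ e (r e') =
      φ e (lag (fun _ : Unit => E) (fun _ => C (c z0) - aff c) e') := by
    intro e he e'
    have h1 : Ideal.span (Set.range fun j => pderiv j (aff c)) ≤ RingHom.ker (φ e).toRingHom := by
      rw [Ideal.span_le]
      rintro _ ⟨j, rfl⟩
      exact (hφ e (hE' e he)).2 j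
    have h2 : φ e (lag (fun _ : Unit => E) (fun _ => C (c z0) - aff c) e' - r e') = 0 :=
      h1 (hrI e')
    rw [map_sub, sub_eq_zero] at h2
    exact h2.symm
  have hdual' : DualFam E' L φ r :=
    ⟨fun i hi j hj hij => by rw [hφr i hi]; exact hdual.off i hi j hj hij,
      fun i hi => by rw [hφr i hi]; exact hdual.diag i hi⟩
  have h1 := hdual'.card_le (n * (d - 2)) (fun i _ => hr i)
  rw [Finset.card_map] at h1
  exact h1.trans (card_monLE_le _ _)

end Field

end

end Pool.Agent.H97.PP
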