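import Pool.Agent.H97.PP.ElimL

/-!
# The elimination polynomial `R`: absence of degenerate critical points
-/

set_option autoImplicit false

namespace Pool.Agent.H97.PP

open MvPolynomial

section Model

variable {n : ℕ} (d : ℕ)

/-- The test polynomial. -/
noncomputable def f0 (n d : ℕ) : MvPolynomial (Fin n) ℤ := ∑ j, (X j ^ d + X j)

/-- Its derivatives. -/
noncomputable def q0 (j : Fin n) : MvPolynomial (Fin n) ℤ := C (d : ℤ) * X j ^ (d - 1) + 1

theorem pderiv_f0 (j : Fin n) : pderiv j (f0 n d) = q0 d j := by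
  rw [f0, map_sum, Finset.sum_eq_single j]
  · rw [map_add, pderiv_pow, pderiv_X_self, mul_one, q0]
    simp
  · intro i _ hi
    rw [map_add, pderiv_pow, pderiv_X_of_ne hi, mul_zero, zero_add]
  · intro h; exact absurd (Finset.mem_univ _) h

theorem pderiv_q0 (hd : 2 ≤ d) (i j : Fin n) [Decidable (i = j)] :
    pderiv i (q0 d j) = if i = j then C ((d : ℤ) * (d - 1 : ℤ)) * X j ^ (d - 2) else 0 := by
  rw [q0, map_add, pderiv_one, add_zero, pderiv_C_mul, pderiv_pow]
  by_cases h : i = j
  · subst h
    rw [if_pos rfl, pderiv_X_self, mul_one, show d - 1 - 1 = d - 2 by omega, C_mul, mul_assoc]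
    congr 2
    have : ((d - 1 : ℕ) : ℤ) = (d : ℤ) - 1 := by
      rw [Nat.cast_sub (by omega)]; simp
    rw [← this]
    simp
  · rw [if_neg h, pderiv_X_of_ne (fun h' => h h'.symm), mul_zero, mul_zero]

theorem hess_f0 (hd : 2 ≤ d) :
    hess (f0 n d) = ∏ j, (C ((d : ℤ) * (d - 1 : ℤ)) * X j ^ (d - 2)) := by
  classical
  have h1 : (Matrix.of fun j l => pderiv j (pderiv l (f0 n d))) =
      Matrix.diagonal fun j => C ((d : ℤ) * (d - 1 : ℤ)) * X j ^ (d - 2) := by
    ext j l : 2
    rw [Matrix.of_apply, pderiv_f0, pderiv_q0 d hd, Matrix.diagonal_apply]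
    by_cases h : j = l
    · rw [if_pos h, if_pos h, h]
    · rw [if_neg h, if_neg h]
  rw [hess, h1, Matrix.det_diagonal]

theorem totalDegree_q0_sub_le (j : Fin n) : (q0 d j - 1).totalDegree ≤ d - 1 := by
  rw [q0, add_sub_cancel_right]
  refine (totalDegree_mul _ _).trans ?_
  rw [totalDegree_C, zero_add, totalDegree_X_pow]

theorem prod_q0_sub (s : Finset (Fin n)) :
    ∃ r : Fin n → MvPolynomial (Fin n) ℤ, (∀ j, (r j).totalDegree ≤ s.card * (d - 1)) ∧
      ∏ j ∈ s, (q0 d j - 1) = C ((-1 : ℤ) ^ s.card) + ∑ j, r j * q0 d j := by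
  classical
  induction s using Finset.induction_on with
  | empty => exact ⟨0, fun j => by simp, by simp⟩
  | insert a s ha ih =>
    obtain ⟨r, hr, hs⟩ := ih
    refine ⟨fun j => (q0 d a - 1) * r j + if j = a then C ((-1 : ℤ) ^ s.card) else 0, ?_, ?_⟩
    · intro j
      rw [Finset.card_insert_of_notMem ha]
      refine (totalDegree_add _ _).trans (max_le ?_ ?_)
      · have h1 := totalDegree_mul (q0 d a - 1) (r j)
        have h2 := totalDegree_q0_sub_le d a
        have h3 := hr j
        rw [add_mul, one_mul]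
        omega
      · split_ifs
        · rw [totalDegree_C]; omega
        · rw [totalDegree_zero]; omega
    · rw [Finset.prod_insert ha, hs, Finset.card_insert_of_notMem ha]
      have h1 : ∑ j, ((q0 d a - 1) * r j + if j = a then C ((-1 : ℤ) ^ s.card) else 0) * q0 d j =
          (q0 d a - 1) * ∑ j, r j * q0 d j + C ((-1 : ℤ) ^ s.card) * q0 d a := by
        simp only [add_mul, Finset.sum_add_distrib, ite_mul, zero_mul, Finset.sum_ite_eq',
          Finset.mem_univ, if_true]
        rw [Finset.mul_sum]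
        congr 1
        exact Finset.sum_congr rfl fun j _ => by ring
      rw [h1, pow_succ, mul_neg_one, C_neg]
      ring

theorem prod_X_mul_hess (hd : 2 ≤ d) :
    (∏ j, X j) * hess (f0 n d) = C ((d - 1 : ℤ) ^ n) * ∏ j, (q0 d j - 1) := by
  rw [hess_f0 d hd, ← Finset.prod_mul_distrib]
  have h1 : (C ((d - 1 : ℤ) ^ n) : MvPolynomial (Fin n) ℤ) = ∏ _j : Fin n, C (d - 1 : ℤ) := by
    rw [Finset.prod_const, Finset.card_univ, Fintype.card_fin, C_pow]
  rw [h1, ← Finset.prod_mul_distrib]
  refine Finset.prod_congr rfl fun j _ => ?_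
  rw [q0, add_sub_cancel_right]
  have h2 : (X j : MvPolynomial (Fin n) ℤ) ^ (d - 1) = X j * X j ^ (d - 2) := by
    rw [← pow_succ']; congr 1; omega
  rw [h2, C_mul]
  ring

/-- Multipliers expressing a multiple of a monomial in the Jacobian and Hessian. -/
structure Mult (ν : Fin n → ℕ) where
  D : ℤ
  w : Fin n → MvPolynomial (Fin n) ℤ
  w' : MvPolynomial (Fin n) ℤ
  hD : D ≠ 0
  hw : ∀ j, (w j).totalDegree + (d - 1) ≤ 3 * n * d
  hw' : w'.totalDegree + n * d ≤ 3 * n * d
  eq : C D * mono ℤ ν = ∑ j, w j * q0 d j + w' * hess (f0 n d)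

theorem mult_base (hd : 2 ≤ d) (ν : Fin n → ℕ) (hν : ∑ i, ν i ≤ n * (d - 2)) :
    Nonempty (Mult d ν) := by
  obtain ⟨r, hr, hs⟩ := prod_q0_sub d (Finset.univ : Finset (Fin n))
  rw [Finset.card_univ, Fintype.card_fin] at hr hs
  have h1 := prod_X_mul_hess (n := n) d hd
  rw [hs] at h1
  have hdeg : (mono ℤ ν).totalDegree ≤ n * (d - 2) := (totalDegree_mono_le ν).trans hν
  have hd1 : ((d - 1 : ℤ) ^ n) ≠ 0 := by
    apply pow_ne_zero
    have : (2 : ℤ) ≤ d := by exact_mod_cast hd
    omega
  rcases Nat.eq_zero_or_pos n with hn | hn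
  · subst hn
    refine ⟨⟨1, 0, mono ℤ ν, one_ne_zero, fun j => j.elim0, ?_, ?_⟩⟩
    · have : (mono ℤ ν).totalDegree ≤ 0 := by simpa using hdeg
      simp; omega
    · rw [hess_f0 d hd]; simp
  have hnd : n * d = n * (d - 2) + 2 * n := by
    obtain ⟨e, rfl⟩ := Nat.exists_eq_add_of_le hd
    rw [show 2 + e - 2 = e by omega]; ring
  have hnd1 : n * (d - 1) = n * (d - 2) + n := by
    obtain ⟨e, rfl⟩ := Nat.exists_eq_add_of_le hd
    rw [show 2 + e - 2 = e by omega, show 2 + e - 1 = e + 1 by omega]; ring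
  have hdn : d - 1 ≤ n * (d - 1) := Nat.le_mul_of_pos_left _ hn
  refine ⟨⟨(d - 1 : ℤ) ^ n * (-1) ^ n, fun j => -(C ((d - 1 : ℤ) ^ n) * mono ℤ ν * r j),
    (∏ j, X j) * mono ℤ ν, mul_ne_zero hd1 (pow_ne_zero _ (by norm_num)), ?_, ?_, ?_⟩⟩
  · intro j
    rw [totalDegree_neg]
    have h2 := totalDegree_mul (C ((d - 1 : ℤ) ^ n) * mono ℤ ν) (r j)
    have h3 := totalDegree_mul (C ((d - 1 : ℤ) ^ n)) (mono ℤ ν)
    have h4 := hr j
    rw [totalDegree_C] at h3
    rw [mul_assoc 3 n d]
    omega
  · have h2 := totalDegree_mul (∏ j : Fin n, X j) (mono ℤ ν)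
    have h3 : (∏ j : Fin n, (X j : MvPolynomial (Fin n) ℤ)).totalDegree ≤ n := by
      refine (totalDegree_finsetProd _ _).trans ?_
      refine (Finset.sum_le_card_nsmul _ _ 1 fun j _ => ?_).trans (by simp)
      rw [totalDegree_X]
    rw [mul_assoc 3 n d]
    omega
  · have h2 : ∑ j, -(C ((d - 1 : ℤ) ^ n) * mono ℤ ν * r j) * q0 d j =
        -(C ((d - 1 : ℤ) ^ n) * mono ℤ ν) * ∑ j, r j * q0 d j := by
      rw [Finset.mul_sum]
      exact Finset.sum_congr rfl fun j _ => by ring
    rw [h2, C_mul]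
    linear_combination (-mono ℤ ν) * h1

theorem mult_exists (hd : 2 ≤ d) : ∀ (m : ℕ) (ν : Fin n → ℕ), ∑ i, ν i = m → m ≤ 3 * n * d →
    Nonempty (Mult d ν) := by
  intro m
  induction m using Nat.strong_induction_on with
  | _ m ih =>
    intro ν hν hm
    by_cases hbig : ∃ j, d - 1 ≤ ν j
    · obtain ⟨j, hj⟩ := hbig
      have h1 := sum_sub_single hj
      obtain ⟨M⟩ := ih (∑ i, (ν - Pi.single j (d - 1) : Fin n → ℕ) i) (by omega)
        (ν - Pi.single j (d - 1)) rfl (by omega)
      have hdeg := totalDegree_mono_le (R := ℤ) (ν - Pi.single j (d - 1))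
      refine ⟨⟨M.D * d, fun i => (if i = j then C M.D * mono ℤ (ν - Pi.single j (d - 1)) else 0) -
        M.w i, -M.w', mul_ne_zero M.hD (by exact_mod_cast (by omega : d ≠ 0)), ?_, ?_, ?_⟩⟩
      · intro i
        have h2 := M.hw i
        have h3 := totalDegree_sub
          (if i = j then C M.D * mono ℤ (ν - Pi.single j (d - 1)) else 0) (M.w i)
        have h4 : (if i = j then C M.D * mono ℤ (ν - Pi.single j (d - 1)) else 0).totalDegree
            ≤ ∑ i, (ν - Pi.single j (d - 1) : Fin n → ℕ) i := by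
          split_ifs
          · refine (totalDegree_mul _ _).trans ?_
            rw [totalDegree_C]; omega
          · rw [totalDegree_zero]; exact Nat.zero_le _
        have h5 : max (if i = j then C M.D * mono ℤ (ν - Pi.single j (d - 1)) else 0).totalDegree
          (M.w i).totalDegree ≤ 3 * n * d - (d - 1) := max_le (by omega) (by omega)
        omega
      · rw [totalDegree_neg]; exact M.hw'
      · have h2 : ∑ i, ((if i = j then C M.D * mono ℤ (ν - Pi.single j (d - 1)) else 0) -
            M.w i) * q0 d i = C M.D * mono ℤ (ν - Pi.single j (d - 1)) * q0 d j -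
            ∑ i, M.w i * q0 d i := by
          simp only [sub_mul, Finset.sum_sub_distrib, ite_mul, zero_mul, Finset.sum_ite_eq',
            Finset.mem_univ, if_true]
        have h3 : mono ℤ ν = mono ℤ (ν - Pi.single j (d - 1)) * X j ^ (d - 1) := by
          conv_lhs => rw [← sub_single_add hj]
          rw [mono_add, mono_single]
        rw [h2, h3, C_mul]
        have h4 := M.eq
        have h5 : q0 d j = C (d : ℤ) * X j ^ (d - 1) + 1 := rfl
        rw [h5]
        linear_combination (-1 : MvPolynomial (Fin n) ℤ) * h4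
    · push Not at hbig
      apply mult_base d hd
      have h1 : ∑ i, ν i ≤ ∑ _i : Fin n, (d - 2) :=
        Finset.sum_le_sum fun i _ => by have := hbig i; omega
      simpa using h1

end Model

section

variable {n d : ℕ}

/-- Chosen multipliers. -/
noncomputable def mlt (hd : 2 ≤ d) (ν : AMon n (3 * n * d)) : Mult d ν.1 :=
  (mult_exists d hd _ ν.1 rfl (mem_monLE.mp ν.2)).some

section Ring

variable {R : Type} [CommRing R]

/-- The test elements of the ideal of degenerate critical points. -/
noncomputable def psiR (hd : 2 ≤ d) (c : AMon n d → R) (ν : AMon n (3 * n * d)) :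
    MvPolynomial (Fin n) R :=
  ∑ j, map (Int.castRingHom R) ((mlt hd ν).w j) * pderiv j (aff c) +
    map (Int.castRingHom R) (mlt hd ν).w' * hess (aff c)

theorem totalDegree_map_le' (f : MvPolynomial (Fin n) ℤ) :
    (map (Int.castRingHom R) f).totalDegree ≤ f.totalDegree := by
  classical
  rw [totalDegree, totalDegree]
  exact Finset.sup_mono (support_map_subset _ _)

theorem totalDegree_psiR_le (hd : 2 ≤ d) (c : AMon n d → R) (ν : AMon n (3 * n * d)) :
    (psiR hd c ν).totalDegree ≤ 3 * n * d := by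
  refine (totalDegree_add _ _).trans (max_le ?_ ?_)
  · refine totalDegree_finsetSum_le fun j _ => ?_
    refine (totalDegree_mul _ _).trans ?_
    have h1 := totalDegree_map_le' (R := R) ((mlt hd ν).w j)
    have h2 := totalDegree_pderiv_aff_le j c
    have h3 := (mlt hd ν).hw j
    omega
  · refine (totalDegree_mul _ _).trans ?_
    have h1 := totalDegree_map_le' (R := R) (mlt hd ν).w'
    have h2 := totalDegree_hess_aff_le c
    have h3 := (mlt hd ν).hw'
    omega

/-- The matrix. -/
noncomputable def matR (hd : 2 ≤ d) (c : AMon n d → R) :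
    Matrix (AMon n (3 * n * d)) (AMon n (3 * n * d)) R :=
  Matrix.of fun ν' ν => co (psiR hd c ν) ν'.1

theorem map_psiR {R' : Type} [CommRing R'] (φ : R →+* R') (hd : 2 ≤ d) (c : AMon n d → R)
    (ν : AMon n (3 * n * d)) : map φ (psiR hd c ν) = psiR hd (fun α => φ (c α)) ν := by
  have h0 : φ.comp (Int.castRingHom R) = Int.castRingHom R' := RingHom.ext_int _ _
  rw [psiR, psiR, map_add, map_sum, map_mul, map_hess, map_aff, map_map, h0]
  congr 1
  refine Finset.sum_congr rfl fun j _ => ?_
  rw [map_mul, map_map, h0, ← pderiv_map, map_aff]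

theorem map_matR {R' : Type} [CommRing R'] (φ : R →+* R') (hd : 2 ≤ d) (c : AMon n d → R) :
    φ (matR hd c).det = (matR hd fun α => φ (c α)).det := by
  rw [RingHom.map_det]
  congr 1
  ext ν' ν : 2
  simp only [RingHom.mapMatrix_apply, Matrix.map_apply, matR, Matrix.of_apply]
  rw [← co_map, map_psiR]

open Classical in
theorem aff_add_single (z : AMon n d) (hz : mono R z.1 = 1) (c : AMon n d → R) (r : R) :
    aff (c + Pi.single z r) = aff c + C r := by
  rw [aff_add]
  congr 1
  rw [aff, Finset.sum_eq_single z]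
  · rw [Pi.single_eq_same, hz, mul_one]
  · intro α _ hα
    rw [Pi.single_eq_of_ne hα, C_0, zero_mul]
  · intro h; exact absurd (Finset.mem_univ _) h

theorem matR_of_aff (hd : 2 ≤ d) (c c' : AMon n d → R) (r : R) (hr : aff c = aff c' + C r) :
    matR hd c = matR hd c' := by
  have hp : ∀ j, pderiv j (aff c) = pderiv j (aff c') := by
    intro j
    rw [hr, map_add, pderiv_C, add_zero]
  have hh : hess (aff c) = hess (aff c') := by
    rw [hess, hess]
    congr 1
    ext j l : 2
    rw [Matrix.of_apply, Matrix.of_apply, hp]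
  have hpsi : ∀ ν, psiR hd c ν = psiR hd c' ν := by
    intro ν
    unfold psiR
    simp only [hp, hh]
  unfold matR
  simp only [hpsi]

theorem matR_congr (hd : 2 ≤ d) (z : AMon n d) (hz : mono R z.1 = 1) (c c' : AMon n d → R)
    (h : ∀ α : AMon n d, α ≠ z → c α = c' α) : matR hd c = matR hd c' := by
  classical
  have h1 : c = c' + Pi.single z (c z - c' z) := by
    funext α
    by_cases h' : α = z
    · subst h'; simp
    · simp [h', h α h']
  refine matR_of_aff hd c c' (c z - c' z) ?_
  have h2 := aff_add_single z hz c' (c z - c' z)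
  rw [← h1] at h2
  exact h2

end Ring

/-- The polynomial `R`. -/
noncomputable def polR (n : ℕ) {d : ℕ} (hd : 2 ≤ d) : MvPolynomial (AMon n d) ℤ :=
  (matR (n := n) hd fun α => X α).det

theorem aeval_polR {R : Type} [CommRing R] (hd : 2 ≤ d) (c : AMon n d → R) :
    aeval c (polR n hd) = (matR hd c).det := by
  have h := map_matR (aeval c : MvPolynomial (AMon n d) ℤ →ₐ[ℤ] R).toRingHom hd (fun α => X α)
  have h2 : (fun α => (aeval c : MvPolynomial (AMon n d) ℤ →ₐ[ℤ] R).toRingHom (X α)) = c := by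
    funext α
    exact aeval_X c α
  rw [h2] at h
  exact h

theorem polR_ne_zero (hd : 2 ≤ d) : polR n hd ≠ 0 := by
  classical
  intro h0
  have hf : (f0 n d).totalDegree ≤ d := by
    refine totalDegree_finsetSum_le fun j _ => ?_
    refine (totalDegree_add _ _).trans (max_le ?_ ?_)
    · rw [totalDegree_X_pow]
    · rw [totalDegree_X]; omega
  let c : AMon n d → ℤ := fun α => co (f0 n d) α.1
  have hc : aff c = f0 n d := (aff_as_sum (f0 n d) d hf).symm
  have h1 := aeval_polR hd c
  rw [h0, map_zero] at h1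
  have h2 : matR hd c = Matrix.diagonal fun ν => (mlt hd ν).D := by
    ext ν' ν
    have h3 : psiR hd c ν = C (mlt hd ν).D * mono ℤ ν.1 := by
      rw [psiR, (mlt hd ν).eq, hc]
      have h4 : ∀ f : MvPolynomial (Fin n) ℤ, map (Int.castRingHom ℤ) f = f := by
        intro f
        rw [show Int.castRingHom ℤ = RingHom.id ℤ from RingHom.ext_int _ _, map_id]
      rw [h4]
      congr 1
      exact Finset.sum_congr rfl fun j _ => by rw [h4, pderiv_f0]
    rw [matR, Matrix.of_apply, h3, co_C_mul, co_mono, Matrix.diagonal_apply]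
    by_cases hν : ν' = ν
    · rw [if_pos hν, if_pos (by rw [hν]), mul_one, hν]
    · rw [if_neg hν, if_neg (fun h => hν (Subtype.ext h.symm)), mul_zero]
  rw [h2, Matrix.det_diagonal] at h1
  exact (Finset.prod_ne_zero_iff.mpr fun ν _ => (mlt hd ν).hD) h1.symm

/-- If `R` does not vanish, there are no degenerate critical points. -/
theorem not_bad_of_matR {k : Type} [Field k] (hd : 2 ≤ d) (c : AMon n d → k)
    (hc : (matR hd c).det ≠ 0) : ¬ Bad c := by
  classical
  rintro ⟨L, i1, i2, φ, -, h1, h2⟩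
  let z : AMon n (3 * n * d) := ⟨0, by rw [mem_monLE]; simp⟩
  obtain ⟨x, hx⟩ := exists_comb _ hc z
  have h3 : (1 : MvPolynomial (Fin n) k) = ∑ ν, C (x ν) * psiR hd c ν := by
    apply ext_co
    intro α
    rw [← mono_zero, co_mono, co_sum]
    by_cases hα : α ∈ monLE n (3 * n * d)
    · have h4 := hx ⟨α, hα⟩
      have h5 : ∑ ν, co (C (x ν) * psiR hd c ν) α =
          if (⟨α, hα⟩ : AMon n (3 * n * d)) = z then 1 else 0 := by
        rw [← h4]
        refine Finset.sum_congr rfl fun ν _ => ?_
        rw [co_C_mul, matR, Matrix.of_apply, mul_comm]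
      rw [h5]
      by_cases h6 : α = 0
      · rw [if_pos h6.symm, if_pos (Subtype.ext h6)]
      · rw [if_neg (fun h => h6 h.symm), if_neg (fun h => h6 (congrArg Subtype.val h))]
    · rw [mem_monLE, not_le] at hα
      rw [if_neg, Finset.sum_eq_zero]
      · intro ν _
        rw [co_C_mul, co_eq_zero_of_totalDegree_lt, mul_zero]
        exact lt_of_le_of_lt (totalDegree_psiR_le hd c ν) hα
      · intro h
        rw [← h] at hα
        simp at hα
  have h4 := congrArg φ h3
  rw [map_one, map_sum, Finset.sum_eq_zero] at h4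
  · exact one_ne_zero h4
  · intro ν _
    rw [map_mul, psiR, map_add, map_sum, map_mul φ, h2, mul_zero, Finset.sum_eq_zero, add_zero,
      mul_zero]
    intro j _
    rw [map_mul, h1, mul_zero]

end

end Pool.Agent.H97.PP
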