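import Pool.Agent.H97.PP.Mid

/-!
# Values of the elimination polynomials
-/

set_option autoImplicit false

namespace Pool.Agent.H97.PP

open MvPolynomial

section

variable {n d : ℕ}

theorem eval_eq_aeval {A : Type} (P : MvPolynomial A ℤ) (c : A → ℤ) : eval c P = aeval c P := by
  rw [aeval_def, eval₂_eq_eval_map, show algebraMap ℤ ℤ = RingHom.id ℤ from rfl, map_id]

theorem sum_idx_le (hd : 1 ≤ d) (o : Option (Fin n)) : ∑ i, (idx hd o).1 i ≤ 1 := by
  cases o with
  | none => simp [idx]
  | some j => simp [idx]

theorem extend_unit {A Y : Type} [DecidableEq A] (z : A) (e : Unit → Y) (c : A → Y) :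
    Function.extend (fun _ : Unit => z) e c = Function.update c z (e ()) := by
  funext α
  by_cases h : α = z
  · subst h
    rw [Function.update_self]
    have hinj : Function.Injective (fun _ : Unit => α) := fun _ _ _ => rfl
    exact hinj.extend_apply e c ()
  · rw [Function.update_of_ne h]
    apply Function.extend_apply'
    rintro ⟨_, h'⟩
    exact h h'.symm

/-- The value of `L` at an integral point, and its properties. -/
theorem exists_valL (n : ℕ) {d : ℕ} (hd : 2 ≤ d) (hd1 : 1 ≤ d) :
    ∃ V : (AMon n d → ℤ) → ℤ,
      (∀ c, V c = eval c (polL n hd)) ∧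
      (∀ (c : AMon n d → ℤ) (p : ℕ),
        ((V c : ℤ) : ZMod p) = (matL hd fun α => ((c α : ℤ) : ZMod p)).det) ∧
      (∀ (c : AMon n d → ℤ) (e : Option (Fin n) → ℤ),
        V (Function.extend (idx hd1) e c) = V c) ∧
      (∀ (c : AMon n d → ℤ) (y : ℤ),
        V (Function.update c (idx hd1 none) y) = V c) := by
  refine ⟨fun c => (matL hd c).det, fun c => ?_, fun c p => ?_, fun c e => ?_, fun c y => ?_⟩
  · show (matL hd c).det = _
    rw [eval_eq_aeval, aeval_polL]
  · exact map_matL (Int.castRingHom (ZMod p)) hd c
  · have h : matL hd (Function.extend (idx hd1) e c) = matL hd c := by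
      apply matL_congr
      intro α hα
      apply Function.extend_apply'
      rintro ⟨o, rfl⟩
      have := sum_idx_le hd1 o
      omega
    show (matL hd _).det = (matL hd _).det
    rw [h]
  · have h : matL hd (Function.update c (idx hd1 none) y) = matL hd c := by
      apply matL_congr
      intro α hα
      apply Function.update_of_ne
      rintro rfl
      have := sum_idx_le (n := n) hd1 none
      omega
    show (matL hd _).det = (matL hd _).det
    rw [h]

/-- The value of `R` at an integral point, and its properties. -/
theorem exists_valR (n : ℕ) {d : ℕ} (hd : 2 ≤ d) (hd1 : 1 ≤ d) :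
    ∃ V : (AMon n d → ℤ) → ℤ,
      (∀ c, V c = eval c (polR n hd)) ∧
      (∀ (c : AMon n d → ℤ) (p : ℕ),
        ((V c : ℤ) : ZMod p) = (matR hd fun α => ((c α : ℤ) : ZMod p)).det) ∧
      (∀ (c : AMon n d → ℤ) (y : ℤ),
        V (Function.update c (idx hd1 none) y) = V c) := by
  refine ⟨fun c => (matR hd c).det, fun c => ?_, fun c p => ?_, fun c y => ?_⟩
  · show (matR hd c).det = _
    rw [eval_eq_aeval, aeval_polR]
  · exact map_matR (Int.castRingHom (ZMod p)) hd c
  · have h : matR hd (Function.update c (idx hd1 none) y) = matR hd c :=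
      matR_congr hd _ (mono_idx_none hd1) _ _ fun α hα => Function.update_of_ne hα _ _
    show (matR hd _).det = (matR hd _).det
    rw [h]

end

end Pool.Agent.H97.PP
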