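import Pool.Agent.H97.PP.Large1

/-!
# Large primes
-/

set_option autoImplicit false

namespace Pool.Agent.H97.PP

open MvPolynomial

section

variable {n d : ℕ}

open Classical in
/-- Fibre bound modulo a large prime. -/
theorem badAt_fibre_card_le (hd : 1 ≤ d) {p : ℕ} (hp : p.Prime) (a A : AMon n d → ℤ)
    (Q : ℤ) (hQ : Q ≠ 0) (hpQ : ¬ (p : ℤ) ∣ Q) (s : ℕ) (hsp : s ≤ p) (c : AMon n d → ℤ) :
    ((Fintype.piFinset fun o => ap (a (idx hd o)) Q (A (idx hd o)) s).filter
      fun e => BadAt p (Function.extend (idx hd) e c)).card ≤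
      ((n + 1) * ((s - 1) * (d + 1)) + 1) ^ n := by
  have hFact := Fact.mk hp
  let S : Option (Fin n) → Finset (ZMod p) := fun o =>
    (ap (a (idx hd o)) Q (A (idx hd o)) s).image fun x : ℤ => (x : ZMod p)
  have hS : ∀ o, (S o).card ≤ s := by
    intro o
    refine Finset.card_image_le.trans ?_
    rw [card_ap _ _ _ hQ]
  refine le_trans ?_ (bad_fibre_card_le hd (fun α => ((c α : ℤ) : ZMod p)) S s hS)
  refine Finset.card_le_card_of_injOn (fun e o => ((e o : ℤ) : ZMod p)) ?_ ?_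
  · intro e he
    rw [Finset.mem_coe, Finset.mem_filter, Fintype.mem_piFinset] at he
    rw [Finset.mem_coe, Finset.mem_filter, Fintype.mem_piFinset]
    refine ⟨fun o => Finset.mem_image_of_mem _ (he.1 o), ?_⟩
    obtain ⟨_, hb⟩ := he.2
    have : (fun α => ((Function.extend (idx hd) e c α : ℤ) : ZMod p)) =
        Function.extend (idx hd) (fun o => ((e o : ℤ) : ZMod p)) (fun α => ((c α : ℤ) : ZMod p)) := by
      funext α
      by_cases h : ∃ o, idx hd o = α
      · obtain ⟨o, rfl⟩ := h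
        rw [(idx_injective hd).extend_apply, (idx_injective hd).extend_apply]
      · rw [Function.extend_apply' _ _ _ h, Function.extend_apply' _ _ _ h]
    rw [this] at hb
    exact hb
  · intro e he e' he' h
    rw [Finset.mem_coe, Finset.mem_filter, Fintype.mem_piFinset] at he he'
    funext o
    exact ap_injOn (a (idx hd o)) Q (A (idx hd o)) hp hpQ hsp (he.1 o) (he'.1 o) (congrFun h o)

open Classical in
/-- Fibre bound modulo a large prime, constant coefficient only. -/
theorem badAt_const_card_le (hd : 2 ≤ d) (hd1 : 1 ≤ d) {p : ℕ} (hp : p.Prime)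
    (a A : AMon n d → ℤ)
    (Q : ℤ) (hpQ : ¬ (p : ℤ) ∣ Q) (s : ℕ) (hsp : s ≤ p) (c : AMon n d → ℤ)
    (hL : (matL hd fun α => ((c α : ℤ) : ZMod p)).det ≠ 0) :
    ((Fintype.piFinset fun _ : Unit => ap (a (idx hd1 none)) Q
      (A (idx hd1 none)) s).filter fun e =>
        BadAt p (Function.extend (fun _ : Unit => idx hd1 none) e c)).card ≤
      (n * (d - 2) + 1) ^ n := by
  have hFact := Fact.mk hp
  obtain ⟨z, hz⟩ : ∃ z : AMon n d, z = idx hd1 none := ⟨_, rfl⟩
  rw [← hz]
  let S : Finset (ZMod p) := (ap (a z) Q (A z) s).image fun x : ℤ => (x : ZMod p)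
  have h0 := bad_const_card_le hd (fun α => ((c α : ℤ) : ZMod p)) hL S
  rw [← hz] at h0
  refine le_trans ?_ h0
  refine Finset.card_le_card_of_injOn (fun e => ((e () : ℤ) : ZMod p)) ?_ ?_
  · intro e he
    rw [Finset.mem_coe, Finset.mem_filter, Fintype.mem_piFinset] at he
    rw [Finset.mem_coe, Finset.mem_filter]
    refine ⟨Finset.mem_image_of_mem _ (he.1 ()), ?_⟩
    obtain ⟨_, hb⟩ := he.2
    rw [extend_unit] at hb
    have : (fun α => ((Function.update c z (e ()) α : ℤ) : ZMod p)) =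
        Function.update (fun α => ((c α : ℤ) : ZMod p)) z ((e () : ℤ) : ZMod p) := by
      funext α
      by_cases h : α = z
      · rw [h, Function.update_self, Function.update_self]
      · rw [Function.update_of_ne h, Function.update_of_ne h]
    rw [this] at hb
    exact hb
  · intro e he e' he' h
    rw [Finset.mem_coe, Finset.mem_filter, Fintype.mem_piFinset] at he he'
    funext o
    exact ap_injOn (a z) Q (A z) hp hpQ hsp (he.1 ()) (he'.1 ()) h

open Classical in
/-- The primes to be considered. -/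
noncomputable def primesOf (s : ℕ) (Q X : ℤ) : Finset ℕ :=
  (Finset.range (X.natAbs + 1)).filter fun p => p.Prime ∧ s < p ∧ ¬ (p : ℤ) ∣ Q ∧ (p : ℤ) ∣ X

theorem mem_primesOf {s : ℕ} {Q X : ℤ} (hX : X ≠ 0) {p : ℕ} :
    p ∈ primesOf s Q X ↔ p.Prime ∧ s < p ∧ ¬ (p : ℤ) ∣ Q ∧ (p : ℤ) ∣ X := by
  rw [primesOf, Finset.mem_filter, Finset.mem_range]
  refine ⟨fun h => h.2, fun h => ⟨?_, h⟩⟩
  have := Nat.le_of_dvd (Int.natAbs_pos.mpr hX) (Int.natCast_dvd.mp h.2.2.2)
  omega

theorem card_primesOf_le {s : ℕ} {Q X : ℤ} (hX : X ≠ 0) (e : ℕ)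
    (hXs : |X| < (s : ℤ) ^ (e + 1)) : (primesOf s Q X).card ≤ e :=
  card_primes_le X hX s e hXs _ fun p hp => by
    have := (mem_primesOf hX).mp hp
    exact ⟨this.1, this.2.1, this.2.2.2⟩

open Classical in
/-- Counting with an invariant function `V` of the coordinates outside the image of `ι`, when the
condition involves a prime divisor of `V`. -/
theorem count_of_fibres {A κ : Type} [Fintype A] [Fintype κ] [DecidableEq A] [DecidableEq κ]
    (ι : κ → A) (hι : Function.Injective ι) (a B : A → ℤ) (Q : ℤ) (hQ : Q ≠ 0) (s e b : ℕ)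
    (V : (A → ℤ) → ℤ) (hV : ∀ c x, V (Function.extend ι x c) = V c)
    (hs : ∀ c ∈ (Fintype.piFinset fun α => ap (a α) Q (B α) s), |V c| < (s : ℤ) ^ (e + 1))
    (G : ℕ → (A → ℤ) → Prop) (hG : ∀ p c x, G p (Function.extend ι x c) → G p c)
    (T : ℕ → (A → ℤ) → Prop)
    (hT : ∀ p, p.Prime → s < p → ¬ (p : ℤ) ∣ Q → ∀ c, G p c →
      ((Fintype.piFinset fun o => ap (a (ι o)) Q (B (ι o)) s).filter
        fun x => T p (Function.extend ι x c)).card ≤ b) :
    ((Fintype.piFinset fun α => ap (a α) Q (B α) s).filter fun c => V c ≠ 0 ∧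
      ∃ p ∈ primesOf s Q (V c), G p c ∧ T p c).card * s ^ Fintype.card κ ≤
      s ^ Fintype.card A * (e * b) := by
  obtain ⟨P, hP⟩ : ∃ P : (A → ℤ) → Prop, ∀ c, P c ↔ (V c ≠ 0 ∧
      ∃ p ∈ primesOf s Q (V c), G p c ∧ T p c) := ⟨_, fun _ => Iff.rfl⟩
  obtain ⟨G', hG'⟩ : ∃ G' : (A → ℤ) → Prop, ∀ c, G' c ↔ True := ⟨_, fun _ => Iff.rfl⟩
  have h1 := fibre_count ι hι (fun α => ap (a α) Q (B α) s) G' P
    (fun c e _ => (hG' _).mpr trivial) (e * b) (by
      intro c hc _
      by_cases h0 : V c = 0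
      · have hemp : ((Fintype.piFinset fun o => ap (a (ι o)) Q (B (ι o)) s).filter
            fun x => P (Function.extend ι x c)) = ∅ := by
          rw [Finset.filter_eq_empty_iff]
          intro x _ hx
          rw [hP, hV] at hx
          exact hx.1 h0
        rw [hemp]; simp
      have hsub : ((Fintype.piFinset fun o => ap (a (ι o)) Q (B (ι o)) s).filter
          fun x => P (Function.extend ι x c)) ⊆
          ((primesOf s Q (V c)).filter fun p => G p c).biUnion fun p =>
            ((Fintype.piFinset fun o => ap (a (ι o)) Q (B (ι o)) s).filter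
              fun x => T p (Function.extend ι x c)) := by
        intro x hx
        rw [Finset.mem_filter, hP, hV] at hx
        obtain ⟨hx1, hx2, p, hp, hg, hb⟩ := hx
        rw [Finset.mem_biUnion]
        exact ⟨p, Finset.mem_filter.mpr ⟨hp, hG _ _ _ hg⟩, Finset.mem_filter.mpr ⟨hx1, hb⟩⟩
      refine (Finset.card_le_card hsub).trans ?_
      refine (Finset.card_biUnion_le_card_mul _ _ b fun p hp => ?_).trans
          (Nat.mul_le_mul_right _ ((Finset.card_filter_le _ _).trans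
            (card_primesOf_le h0 e (hs c hc))))
      rw [Finset.mem_filter] at hp
      have h2 := (mem_primesOf h0).mp hp.1
      exact hT p h2.1 h2.2.1 h2.2.2.1 c hp.2)
  simp only [card_ap _ _ _ hQ, Finset.prod_const, Finset.card_univ] at h1
  have h2 : ((Fintype.piFinset fun α => ap (a α) Q (B α) s).filter fun c => G' c).card ≤
      s ^ Fintype.card A := by
    refine (Finset.card_filter_le _ _).trans ?_
    rw [Fintype.card_piFinset]
    simp only [card_ap _ _ _ hQ, Finset.prod_const, Finset.card_univ, le_refl]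
  refine le_trans (Nat.mul_le_mul_right _ (Finset.card_le_card ?_))
    (h1.trans (Nat.mul_le_mul_right _ h2))
  intro c hc
  rw [Finset.mem_filter] at hc ⊢
  exact ⟨hc.1, (hG' c).mpr trivial, (hP c).mpr hc.2⟩

/-- The same for an arbitrary finite set. -/
theorem count_of_fibres' {A κ : Type} [Fintype A] [Fintype κ] [DecidableEq A] [DecidableEq κ]
    (ι : κ → A) (hι : Function.Injective ι) (a B : A → ℤ) (Q : ℤ) (hQ : Q ≠ 0) (s e b : ℕ)
    (V : (A → ℤ) → ℤ) (hV : ∀ c x, V (Function.extend ι x c) = V c)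
    (hs : ∀ c ∈ (Fintype.piFinset fun α => ap (a α) Q (B α) s), |V c| < (s : ℤ) ^ (e + 1))
    (G : ℕ → (A → ℤ) → Prop) (hG : ∀ p c x, G p (Function.extend ι x c) → G p c)
    (T : ℕ → (A → ℤ) → Prop)
    (hT : ∀ p, p.Prime → s < p → ¬ (p : ℤ) ∣ Q → ∀ c, G p c →
      ∀ D : Finset (κ → ℤ), (∀ x ∈ D, x ∈ (Fintype.piFinset fun o => ap (a (ι o)) Q (B (ι o)) s) ∧
        T p (Function.extend ι x c)) → D.card ≤ b)
    (E : Finset (A → ℤ)) (hE : ∀ c ∈ E, c ∈ (Fintype.piFinset fun α => ap (a α) Q (B α) s) ∧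
      V c ≠ 0 ∧ ∃ p ∈ primesOf s Q (V c), G p c ∧ T p c) :
    E.card * s ^ Fintype.card κ ≤ s ^ Fintype.card A * (e * b) := by
  classical
  refine (Nat.mul_le_mul_right _ (Finset.card_le_card fun c hc =>
    Finset.mem_filter.mpr (hE c hc))).trans
    (count_of_fibres ι hι a B Q hQ s e b V hV hs G hG T fun p hp hsp hpQ c hg =>
      hT p hp hsp hpQ c hg _ fun x hx => Finset.mem_filter.mp hx)

/-- Fibre bound modulo a large prime. -/
theorem badAt_fibre_card_le' (hd : 1 ≤ d) {p : ℕ} (hp : p.Prime) (a A : AMon n d → ℤ)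
    (Q : ℤ) (hQ : Q ≠ 0) (hpQ : ¬ (p : ℤ) ∣ Q) (s : ℕ) (hsp : s ≤ p) (c : AMon n d → ℤ)
    (D : Finset (Option (Fin n) → ℤ))
    (hD : ∀ x ∈ D, x ∈ (Fintype.piFinset fun o => ap (a (idx hd o)) Q (A (idx hd o)) s) ∧
      BadAt p (Function.extend (idx hd) x c)) :
    D.card ≤ ((n + 1) * ((s - 1) * (d + 1)) + 1) ^ n := by
  classical
  exact (Finset.card_le_card fun x hx => Finset.mem_filter.mpr (hD x hx)).trans
    (badAt_fibre_card_le hd hp a A Q hQ hpQ s hsp c)

/-- Fibre bound modulo a large prime, constant coefficient only. -/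
theorem badAt_const_card_le' (hd : 2 ≤ d) (hd1 : 1 ≤ d) {p : ℕ} (hp : p.Prime)
    (a A : AMon n d → ℤ)
    (Q : ℤ) (hpQ : ¬ (p : ℤ) ∣ Q) (s : ℕ) (hsp : s ≤ p) (c : AMon n d → ℤ)
    (hL : (matL hd fun α => ((c α : ℤ) : ZMod p)).det ≠ 0) (D : Finset (Unit → ℤ))
    (hD : ∀ x ∈ D, x ∈ (Fintype.piFinset fun _ : Unit => ap (a (idx hd1 none)) Q
      (A (idx hd1 none)) s) ∧ BadAt p (Function.extend (fun _ : Unit => idx hd1 none) x c)) :
    D.card ≤ (n * (d - 2) + 1) ^ n := by
  classical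
  exact (Finset.card_le_card fun x hx => Finset.mem_filter.mpr (hD x hx)).trans
    (badAt_const_card_le hd hd1 hp a A Q hpQ s hsp c hL)

end

end Pool.Agent.H97.PP
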