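import Pool.Agent.H97.PP.Large2

/-!
# Large primes, conclusion
-/

set_option autoImplicit false

namespace Pool.Agent.H97.PP

open MvPolynomial

section

variable {n d : ℕ}

theorem abs_val_lt {A : Type} (L : MvPolynomial A ℤ) (Q : ℤ) (hQ : Q ≠ 0) (K s : ℕ) (hs : 1 ≤ s)
    (a B : A → ℤ) (ha : ∀ α, |a α| ≤ K) (hB : ∀ α, |B α| ≤ K * s) (c : A → ℤ)
    (hc : ∀ α, c α ∈ ap (a α) Q (B α) s)
    (hbig : (∑ m ∈ L.support, |coeff m L|) * (K + |Q| * (K + 1)) ^ L.totalDegree < s) :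
    |eval c L| < (s : ℤ) ^ (L.totalDegree + 1) := by
  have hs' : (1 : ℤ) ≤ s := by exact_mod_cast hs
  have hQ1 : 1 ≤ |Q| := Int.one_le_abs hQ
  have hK0 : (0 : ℤ) ≤ K := Int.natCast_nonneg K
  have hY : (1 : ℤ) ≤ (K + |Q| * (K + 1)) := by nlinarith
  have h1 : ∀ α, |c α| ≤ (K + |Q| * (K + 1)) * s := by
    intro α
    obtain ⟨y, h2, h3, hy⟩ := mem_ap.mp (hc α)
    have h4 := abs_le.mp (hB α)
    have h5 : |y| ≤ K * s + s := abs_le.mpr ⟨by linarith, by linarith⟩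
    rw [← hy]
    calc |a α + Q * y| ≤ |a α| + |Q * y| := abs_add_le _ _
      _ = |a α| + |Q| * |y| := by rw [abs_mul]
      _ ≤ K + |Q| * (K * s + s) := by
          refine add_le_add (ha α) (mul_le_mul_of_nonneg_left h5 (abs_nonneg _))
      _ ≤ (K + |Q| * (K + 1)) * s := by nlinarith
  have h2 := abs_eval_le L c _ (by nlinarith) h1
  refine lt_of_le_of_lt h2 ?_
  rw [mul_pow, ← mul_assoc, pow_succ (s : ℤ) L.totalDegree, mul_comm ((s : ℤ) ^ _) (s : ℤ)]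
  exact mul_lt_mul_of_pos_right hbig (by positivity)

/-- Few polynomials are bad at some prime larger than the side of the box. -/
theorem card_large_le (n d : ℕ) (hd : 2 ≤ d) : ∃ C3 : ℕ, ∀ (Q : ℤ), Q ≠ 0 → ∀ K : ℕ,
    ∃ s0 : ℕ, ∀ s ≥ s0, ∀ a B : AMon n d → ℤ, (∀ α, |a α| ≤ K) → (∀ α, |B α| ≤ K * s) →
    ∀ E : Finset (AMon n d → ℤ),
    (∀ c ∈ E, c ∈ (Fintype.piFinset fun α => ap (a α) Q (B α) s) ∧
      ∃ p : ℕ, p.Prime ∧ s < p ∧ ¬ (p : ℤ) ∣ Q ∧ BadAt p c) →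
    E.card * s ≤ C3 * s ^ Fintype.card (AMon n d) := by
  classical
  have hd1 : 1 ≤ d := by omega
  obtain ⟨VL, hVL1, hVL2, hVL3, hVL4⟩ := exists_valL n hd hd1
  obtain ⟨VR, hVR1, hVR2, hVR3⟩ := exists_valR n hd hd1
  have hL0 : polL n hd ≠ 0 := polL_ne_zero hd
  have hR0 : polR n hd ≠ 0 := polR_ne_zero hd
  obtain ⟨PL, hPL⟩ : ∃ PL, PL = polL n hd := ⟨_, rfl⟩
  obtain ⟨PR, hPR⟩ : ∃ PR, PR = polR n hd := ⟨_, rfl⟩
  rw [← hPL] at hL0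
  rw [← hPR] at hR0
  simp only [← hPL] at hVL1
  simp only [← hPR] at hVR1
  have hbadR : ∀ (p : ℕ) (c : AMon n d → ℤ), BadAt p c → (p : ℤ) ∣ VR c := by
    intro p c hb
    obtain ⟨hp, hb⟩ := hb
    have := Fact.mk hp
    by_contra hcon
    refine not_bad_of_matR hd _ ?_ hb
    rw [← hVR2]
    rwa [Ne, ZMod.intCast_zmod_eq_zero_iff_dvd]
  have hnL : ∀ (p : ℕ) (hp : p.Prime) (c : AMon n d → ℤ), ¬ (p : ℤ) ∣ VL c →
      (matL hd fun α => ((c α : ℤ) : ZMod p)).det ≠ 0 := by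
    intro p hp c h
    have := Fact.mk hp
    rw [← hVL2]
    rwa [Ne, ZMod.intCast_zmod_eq_zero_iff_dvd]
  obtain ⟨eL, heL⟩ : ∃ eL, eL = PL.totalDegree := ⟨_, rfl⟩
  obtain ⟨eR, heR⟩ : ∃ eR, eR = PR.totalDegree := ⟨_, rfl⟩
  refine ⟨eL + eR + eL * ((n + 1) * (d + 1)) ^ n + eR * (n * (d - 2) + 1) ^ n, fun Q hQ K => ?_⟩
  obtain ⟨uL, huL⟩ : ∃ u : ℤ, u = (∑ m ∈ PL.support, |coeff m PL|) *
    (K + |Q| * (K + 1)) ^ PL.totalDegree := ⟨_, rfl⟩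
  obtain ⟨uR, huR⟩ : ∃ u : ℤ, u = (∑ m ∈ PR.support, |coeff m PR|) *
    (K + |Q| * (K + 1)) ^ PR.totalDegree := ⟨_, rfl⟩
  refine ⟨uL.natAbs + uR.natAbs + 1, fun s hs a B ha hB E hE => ?_⟩
  have hs1 : 1 ≤ s := by omega
  have hsL : uL < s := by omega
  have hsR : uR < s := by omega
  rw [huL] at hsL
  rw [huR] at hsR
  obtain ⟨N, hN⟩ : ∃ N, N = Fintype.card (AMon n d) := ⟨_, rfl⟩
  obtain ⟨Y, hY⟩ : ∃ Y : Finset (AMon n d → ℤ), Y = Fintype.piFinset fun α => ap (a α) Q (B α) s :=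
    ⟨_, rfl⟩
  have hVLs : ∀ c ∈ (Fintype.piFinset fun α => ap (a α) Q (B α) s),
      |VL c| < (s : ℤ) ^ (eL + 1) := by
    intro c hc
    rw [hVL1, heL]
    exact abs_val_lt PL Q hQ K s hs1 a B ha hB c (Fintype.mem_piFinset.mp hc) hsL
  have hVRs : ∀ c ∈ (Fintype.piFinset fun α => ap (a α) Q (B α) s),
      |VR c| < (s : ℤ) ^ (eR + 1) := by
    intro c hc
    rw [hVR1, heR]
    exact abs_val_lt PR Q hQ K s hs1 a B ha hB c (Fintype.mem_piFinset.mp hc) hsR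
  -- the four sets
  obtain ⟨z, hz⟩ : ∃ z : AMon n d, z = idx hd1 none := ⟨_, rfl⟩
  have hzinj : Function.Injective (fun _ : Unit => z) := fun _ _ _ => rfl
  obtain ⟨E1, hE1⟩ : ∃ E1 : Finset (AMon n d → ℤ), ∀ c, c ∈ E1 ↔ (c ∈ Y ∧ VL c ≠ 0 ∧
      ∃ p ∈ primesOf s Q (VL c), True ∧ BadAt p c) := ⟨_, fun c => Finset.mem_filter⟩
  obtain ⟨E2, hE2⟩ : ∃ E2 : Finset (AMon n d → ℤ), ∀ c, c ∈ E2 ↔ (c ∈ Y ∧ VR c ≠ 0 ∧
      ∃ p ∈ primesOf s Q (VR c), ¬ (p : ℤ) ∣ VL c ∧ BadAt p c) := ⟨_, fun c => Finset.mem_filter⟩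
  obtain ⟨E3, hE3⟩ : ∃ E3 : Finset (AMon n d → ℤ), ∀ c, c ∈ E3 ↔ (c ∈ Y ∧ VL c = 0) :=
    ⟨_, fun c => Finset.mem_filter⟩
  obtain ⟨E4, hE4⟩ : ∃ E4 : Finset (AMon n d → ℤ), ∀ c, c ∈ E4 ↔ (c ∈ Y ∧ VR c = 0) :=
    ⟨_, fun c => Finset.mem_filter⟩
  have c1 := count_of_fibres' (idx hd1) (idx_injective hd1) a B Q hQ s eL
    (((n + 1) * ((s - 1) * (d + 1)) + 1) ^ n) VL (fun c x => hVL3 c x) hVLs
    (fun _ _ => True) (fun _ _ _ h => h) (fun p c => BadAt p c)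
    (fun p hp hsp hpQ c _ D hD => badAt_fibre_card_le' hd1 hp a B Q hQ hpQ s hsp.le c D hD)
    E1 (fun c hc => by rw [← hY]; exact (hE1 c).mp hc)
  have c2 := count_of_fibres' (fun _ : Unit => z) hzinj a B Q hQ s eR
    ((n * (d - 2) + 1) ^ n) VR (fun c x => by rw [extend_unit, hz]; exact hVR3 c _) hVRs
    (fun p c => ¬ (p : ℤ) ∣ VL c) (fun p c x h => by
      rw [extend_unit, hz, hVL4] at h; exact h) (fun p c => BadAt p c)
    (fun p hp hsp hpQ c hg D hD => by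
      rw [hz] at hD
      exact badAt_const_card_le' hd hd1 hp a B Q hpQ s hsp.le c (hnL p hp c hg) D hD)
    E2 (fun c hc => by rw [← hY]; exact (hE2 c).mp hc)
  have c3 := sz_le PL hL0 (fun α => ap (a α) Q (B α) s) s (fun α => card_ap _ _ _ hQ s) E3
    (fun c hc => by rw [← hY]; exact ((hE3 c).mp hc).1)
    (fun c hc => by rw [← hVL1]; exact ((hE3 c).mp hc).2)
  have c4 := sz_le PR hR0 (fun α => ap (a α) Q (B α) s) s (fun α => card_ap _ _ _ hQ s) E4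
    (fun c hc => by rw [← hY]; exact ((hE4 c).mp hc).1)
    (fun c hc => by rw [← hVR1]; exact ((hE4 c).mp hc).2)
  rw [Fintype.card_option, Fintype.card_fin, ← hN] at c1
  rw [Fintype.card_unit, pow_one, ← hN] at c2
  rw [← heL, ← hN] at c3
  rw [← heR, ← hN] at c4
  rw [← hN]
  have hsub : E ⊆ (E3 ∪ E4) ∪ (E1 ∪ E2) := by
    intro c hc
    obtain ⟨hc0, p, hp, hsp, hpQ, hb⟩ := hE c hc
    rw [← hY] at hc0
    rw [Finset.mem_union, Finset.mem_union, Finset.mem_union, hE1, hE2, hE3, hE4]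
    by_cases h1 : VL c = 0
    · exact Or.inl (Or.inl ⟨hc0, h1⟩)
    by_cases h2 : VR c = 0
    · exact Or.inl (Or.inr ⟨hc0, h2⟩)
    by_cases h3 : (p : ℤ) ∣ VL c
    · exact Or.inr (Or.inl ⟨hc0, h1, p, (mem_primesOf h1).mpr ⟨hp, hsp, hpQ, h3⟩, trivial, hb⟩)
    · exact Or.inr (Or.inr ⟨hc0, h2, p, (mem_primesOf h2).mpr ⟨hp, hsp, hpQ, hbadR p c hb⟩,
        h3, hb⟩)
  have hcard := (Finset.card_le_card hsub).trans ((Finset.card_union_le _ _).trans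
    (Nat.add_le_add (Finset.card_union_le _ _) (Finset.card_union_le _ _)))
  -- the bound for `c1`
  have c1' : E1.card * s ≤ s ^ N * (eL * ((n + 1) * (d + 1)) ^ n) := by
    have hpos : 0 < s ^ n := Nat.pow_pos hs1
    refine Nat.le_of_mul_le_mul_right ?_ hpos
    have h5 : (n + 1) * ((s - 1) * (d + 1)) + 1 ≤ ((n + 1) * (d + 1)) * s := by
      obtain ⟨q, rfl⟩ := Nat.exists_eq_add_of_le hs1
      rw [show 1 + q - 1 = q by omega]
      nlinarith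
    calc _ = E1.card * s ^ (n + 1) := by ring
      _ ≤ s ^ N * (eL * ((n + 1) * ((s - 1) * (d + 1)) + 1) ^ n) := c1
      _ ≤ s ^ N * (eL * (((n + 1) * (d + 1)) * s) ^ n) :=
          Nat.mul_le_mul_left _ (Nat.mul_le_mul_left _ (Nat.pow_le_pow_left h5 _))
      _ = s ^ N * (eL * ((n + 1) * (d + 1)) ^ n) * s ^ n := by rw [mul_pow]; ring
  have h6 := Nat.mul_le_mul_right s hcard
  rw [add_mul, add_mul, add_mul] at h6
  refine h6.trans ((Nat.add_le_add (Nat.add_le_add c3 c4) (Nat.add_le_add c1' c2)).trans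
    (le_of_eq ?_))
  ring

end

end Pool.Agent.H97.PP
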