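import Mathlib

/-!
# The polynomial method: counting points of an image with coordinates in small sets
-/

set_option autoImplicit false

namespace Pool.Agent.H97.PP

open MvPolynomial

/-- Exponents in `n` variables of total degree at most `D`. -/
def monLE (n D : ℕ) : Finset (Fin n → ℕ) :=
  (Fintype.piFinset fun _ : Fin n => Finset.range (D + 1)).filter fun α => ∑ i, α i ≤ D

theorem mem_monLE {n D : ℕ} {α : Fin n → ℕ} : α ∈ monLE n D ↔ ∑ i, α i ≤ D := by
  rw [monLE, Finset.mem_filter, Fintype.mem_piFinset]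
  refine ⟨fun h => h.2, fun h => ⟨fun i => ?_, h⟩⟩
  rw [Finset.mem_range]
  have : α i ≤ ∑ i, α i := Finset.single_le_sum (fun _ _ => Nat.zero_le _) (Finset.mem_univ i)
  omega

theorem card_monLE_le (n D : ℕ) : (monLE n D).card ≤ (D + 1) ^ n := by
  refine (Finset.card_filter_le _ _).trans ?_
  rw [Fintype.card_piFinset]
  simp

theorem card_monLE_succ_le (m D e : ℕ) (he : e ≤ D) :
    (monLE (m + 1) D).card ≤ (monLE (m + 1) (D - e)).card + e * (D + 1) ^ m := by
  classical
  have hsub : monLE (m + 1) (D - e) ⊆ monLE (m + 1) D := by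
    intro α hα
    rw [mem_monLE] at hα ⊢
    omega
  rw [← Finset.card_sdiff_add_card_eq_card hsub, add_comm]
  refine Nat.add_le_add_left ?_ _
  have hcard : (Finset.Ioc (D - e) D ×ˢ
      (Fintype.piFinset fun _ : Fin m => Finset.range (D + 1))).card = e * (D + 1) ^ m := by
    rw [Finset.card_product, Fintype.card_piFinset, Nat.card_Ioc]
    simp only [Finset.card_range, Finset.prod_const, Finset.card_univ, Fintype.card_fin]
    congr 1
    omega
  rw [← hcard]
  refine Finset.card_le_card_of_injOn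
    (fun α => (∑ i, α i, fun j : Fin m => α j.castSucc)) ?_ ?_
  · intro α hα
    rw [Finset.mem_coe, Finset.mem_sdiff, mem_monLE, mem_monLE] at hα
    rw [Finset.mem_coe, Finset.mem_product, Finset.mem_Ioc, Fintype.mem_piFinset]
    refine ⟨⟨by simpa using hα.2, hα.1⟩, fun j => ?_⟩
    rw [Finset.mem_range]
    have : α j.castSucc ≤ ∑ i, α i :=
      Finset.single_le_sum (fun _ _ => Nat.zero_le _) (Finset.mem_univ _)
    have := hα.1
    show α j.castSucc < D + 1
    omega
  · intro α _ β _ h
    simp only [Prod.mk.injEq] at h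
    obtain ⟨h1, h2⟩ := h
    have h3 : ∀ j : Fin m, α j.castSucc = β j.castSucc := fun j => congrFun h2 j
    rw [Fin.sum_univ_castSucc, Fin.sum_univ_castSucc] at h1
    funext i
    refine Fin.lastCases ?_ (fun j => h3 j) i
    have h4 : ∑ j : Fin m, α j.castSucc = ∑ j : Fin m, β j.castSucc :=
      Finset.sum_congr rfl fun j _ => h3 j
    omega

variable {k : Type} [Field k] {n : ℕ}

theorem finrank_rtd (D : ℕ) :
    Module.finrank k (restrictTotalDegree (Fin n) k D) = (monLE n D).card := by
  rw [restrictTotalDegree, Module.finrank_eq_nat_card_basis (basisRestrictSupport k _)]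
  have h1 : (monLE n D).card = Nat.card (monLE n D) := by simp
  rw [h1]
  refine Nat.card_congr ?_
  refine (Finsupp.equivFunOnFinite : (Fin n →₀ ℕ) ≃ (Fin n → ℕ)).subtypeEquiv fun m => ?_
  show (m.sum fun _ e => e) ≤ D ↔ _
  rw [mem_monLE, Finsupp.sum_fintype _ _ (fun _ => rfl)]
  rfl

/-- Dual family: `φ i (ℓ j)` vanishes for `i ≠ j` and not for `i = j`. -/
structure DualFam {ι : Type} (E : Finset ι) (L : ι → Type) [∀ i, Field (L i)]
    [∀ i, Algebra k (L i)] (φ : ∀ i, MvPolynomial (Fin n) k →ₐ[k] L i)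
    (ℓ : ι → MvPolynomial (Fin n) k) : Prop where
  off : ∀ i ∈ E, ∀ j ∈ E, i ≠ j → φ i (ℓ j) = 0
  diag : ∀ i ∈ E, φ i (ℓ i) ≠ 0

section

variable {ι : Type} {E : Finset ι} {L : ι → Type} [∀ i, Field (L i)]
    [∀ i, Algebra k (L i)] {φ : ∀ i, MvPolynomial (Fin n) k →ₐ[k] L i}
    {ℓ : ι → MvPolynomial (Fin n) k}

theorem DualFam.coeff_eq_zero [DecidableEq ι] (h : DualFam E L φ ℓ) (c : E → k)
    (r : MvPolynomial (Fin n) k) (hr : ∀ i ∈ E, φ i r = 0)
    (hsum : ∑ j : E, c j • ℓ j + r = 0) : c = 0 := by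
  funext i
  have h1 := congrArg (φ i) hsum
  rw [map_add, map_sum, hr i i.2, add_zero, map_zero] at h1
  rw [Finset.sum_eq_single i] at h1
  · rw [map_smul] at h1
    have h2 := smul_eq_zero.mp h1
    rcases h2 with h2 | h2
    · exact h2
    · exact absurd h2 (h.diag i i.2)
  · intro j _ hj
    rw [map_smul, h.off i i.2 j j.2 (fun h' => hj (Subtype.ext h'.symm)), smul_zero]
  · intro h'; exact absurd (Finset.mem_univ i) h'

/-- The number of points is at most the dimension of a space containing the dual family. -/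
theorem DualFam.card_le [DecidableEq ι] (h : DualFam E L φ ℓ) (D : ℕ)
    (hD : ∀ i ∈ E, (ℓ i).totalDegree ≤ D) : E.card ≤ (monLE n D).card := by
  let Ψ : (E → k) →ₗ[k] restrictTotalDegree (Fin n) k D :=
    LinearMap.codRestrict _ (Fintype.linearCombination k (fun j : E => ℓ j)) (by
      intro c
      rw [Fintype.linearCombination_apply]
      refine Submodule.sum_mem _ fun j _ => Submodule.smul_mem _ _ ?_
      rw [mem_restrictTotalDegree]
      exact hD j j.2)
  have hΨ : Function.Injective Ψ := by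
    rw [injective_iff_map_eq_zero]
    intro c hc
    refine h.coeff_eq_zero c 0 (fun i _ => map_zero _) ?_
    have h1 := congrArg Subtype.val hc
    simp only [Ψ, LinearMap.codRestrict_apply, Fintype.linearCombination_apply,
      ZeroMemClass.coe_zero] at h1
    rw [add_zero, h1]
  have h2 := LinearMap.finrank_le_finrank_of_injective hΨ
  rw [finrank_rtd, Module.finrank_fintype_fun_eq_card, Fintype.card_coe] at h2
  exact h2

/-- The same with a relation `q = 0` satisfied by all points. -/
theorem DualFam.card_add_le [DecidableEq ι] (h : DualFam E L φ ℓ) (D : ℕ)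
    (hD : ∀ i ∈ E, (ℓ i).totalDegree ≤ D) (q : MvPolynomial (Fin n) k) (hq0 : q ≠ 0)
    (hq : ∀ i ∈ E, φ i q = 0) (hqD : q.totalDegree ≤ D) :
    E.card + (monLE n (D - q.totalDegree)).card ≤ (monLE n D).card := by
  let Ψ : ((E → k) × restrictTotalDegree (Fin n) k (D - q.totalDegree)) →ₗ[k]
      restrictTotalDegree (Fin n) k D :=
    LinearMap.codRestrict _ (LinearMap.coprod (Fintype.linearCombination k (fun j : E => ℓ j))
      ((LinearMap.mulLeft k q).comp (Submodule.subtype _))) (by
      rintro ⟨c, r, hr⟩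
      rw [LinearMap.coprod_apply, Fintype.linearCombination_apply]
      refine Submodule.add_mem _ (Submodule.sum_mem _ fun j _ => Submodule.smul_mem _ _ ?_) ?_
      · rw [mem_restrictTotalDegree]
        exact hD j j.2
      · rw [mem_restrictTotalDegree] at hr ⊢
        show (q * r).totalDegree ≤ D
        have := totalDegree_mul q r
        omega)
  have hΨ : Function.Injective Ψ := by
    rw [injective_iff_map_eq_zero]
    rintro ⟨c, r, hr⟩ hc
    have h1 := congrArg Subtype.val hc
    simp only [Ψ, LinearMap.codRestrict_apply, LinearMap.coprod_apply,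
      Fintype.linearCombination_apply, ZeroMemClass.coe_zero] at h1
    have h1' : ∑ j : E, c j • ℓ j + q * r = 0 := h1
    have hc0 : c = 0 := by
      refine h.coeff_eq_zero c (q * r) (fun i hi => ?_) h1'
      rw [map_mul, hq i hi, zero_mul]
    subst hc0
    simp only [Pi.zero_apply, zero_smul, Finset.sum_const_zero, zero_add, mul_eq_zero, hq0,
      false_or] at h1'
    subst h1'
    rfl
  have h2 := LinearMap.finrank_le_finrank_of_injective hΨ
  rw [finrank_rtd, Module.finrank_prod, finrank_rtd, Module.finrank_fintype_fun_eq_card,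
    Fintype.card_coe] at h2
  exact h2

end

/-- The Lagrange polynomial of the point `e` of the grid `∏ S j`, pulled back along `u`. -/
noncomputable def lag {κ : Type} [Fintype κ] [DecidableEq k] (S : κ → Finset k)
    (u : κ → MvPolynomial (Fin n) k) (e : κ → k) : MvPolynomial (Fin n) k :=
  ∏ j, ∏ y ∈ (S j).erase (e j), (u j - C y)

theorem totalDegree_lag_le {κ : Type} [Fintype κ] [DecidableEq k] (S : κ → Finset k)
    (u : κ → MvPolynomial (Fin n) k) (e : κ → k) (he : ∀ j, e j ∈ S j) (s δ : ℕ)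
    (hS : ∀ j, (S j).card ≤ s) (hu : ∀ j, (u j).totalDegree ≤ δ) :
    (lag S u e).totalDegree ≤ Fintype.card κ * ((s - 1) * δ) := by
  refine (totalDegree_finsetProd _ _).trans ?_
  refine (Finset.sum_le_card_nsmul _ _ ((s - 1) * δ) fun j _ => ?_).trans (by simp)
  refine (totalDegree_finsetProd _ _).trans ?_
  refine (Finset.sum_le_card_nsmul _ _ δ fun y _ => ?_).trans ?_
  · refine (totalDegree_sub _ _).trans ?_
    rw [totalDegree_C]
    exact max_le (hu j) (Nat.zero_le _)
  · rw [smul_eq_mul, Finset.card_erase_of_mem (he j)]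
    have := hS j
    exact Nat.mul_le_mul_right _ (by omega)

theorem dualFam_lag {κ : Type} [Fintype κ] [DecidableEq k] (S : κ → Finset k)
    (u : κ → MvPolynomial (Fin n) k) (E : Finset (κ → k)) (hE : ∀ e ∈ E, ∀ j, e j ∈ S j)
    (L : (κ → k) → Type) [∀ i, Field (L i)] [∀ i, Algebra k (L i)]
    (φ : ∀ i, MvPolynomial (Fin n) k →ₐ[k] L i)
    (hφ : ∀ e ∈ E, ∀ j, φ e (u j) = algebraMap k (L e) (e j)) :
    DualFam E L φ (lag S u) := by
  have key : ∀ e ∈ E, ∀ e', φ e (lag S u e') =
      algebraMap k (L e) (∏ j, ∏ y ∈ (S j).erase (e' j), (e j - y)) := by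
    intro e he e'
    rw [lag, map_prod, map_prod]
    refine Finset.prod_congr rfl fun j _ => ?_
    rw [map_prod, map_prod]
    refine Finset.prod_congr rfl fun y _ => ?_
    rw [map_sub, hφ e he, map_sub]
    congr 1
    exact (φ e).commutes y
  refine ⟨?_, ?_⟩
  · intro e he e' _ hne
    rw [key e he]
    have : ∃ j, e j ≠ e' j := by
      by_contra hcon
      push Not at hcon
      exact hne (funext hcon)
    obtain ⟨j, hj⟩ := this
    rw [Finset.prod_eq_zero (Finset.mem_univ j), map_zero]
    exact Finset.prod_eq_zero (Finset.mem_erase.mpr ⟨hj, hE e he j⟩) (sub_self _)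
  · intro e he
    rw [key e he]
    rw [Ne, map_eq_zero_iff _ (algebraMap k (L e)).injective, Finset.prod_eq_zero_iff]
    rintro ⟨j, _, hj⟩
    rw [Finset.prod_eq_zero_iff] at hj
    obtain ⟨y, hy, hy'⟩ := hj
    exact (Finset.mem_erase.mp hy).1 (sub_eq_zero.mp hy').symm

/-- Points of the grid in the image of affine space. -/
theorem grid_card_le {κ : Type} [Fintype κ] [DecidableEq κ] [DecidableEq k] (S : κ → Finset k)
    (u : κ → MvPolynomial (Fin n) k) (E : Finset (κ → k)) (hE : ∀ e ∈ E, ∀ j, e j ∈ S j)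
    (L : (κ → k) → Type) [∀ i, Field (L i)] [∀ i, Algebra k (L i)]
    (φ : ∀ i, MvPolynomial (Fin n) k →ₐ[k] L i)
    (hφ : ∀ e ∈ E, ∀ j, φ e (u j) = algebraMap k (L e) (e j)) (s δ : ℕ)
    (hS : ∀ j, (S j).card ≤ s) (hu : ∀ j, (u j).totalDegree ≤ δ) :
    E.card ≤ (Fintype.card κ * ((s - 1) * δ) + 1) ^ n :=
  ((dualFam_lag S u E hE L φ hφ).card_le _
    (fun e he => totalDegree_lag_le S u e (hE e he) s δ hS hu)).trans (card_monLE_le _ _)

/-- Points of the grid in the image of a hypersurface. -/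
theorem grid_card_le_of_rel {m : ℕ} {κ : Type} [Fintype κ] [DecidableEq κ] [DecidableEq k]
    (S : κ → Finset k)
    (u : κ → MvPolynomial (Fin (m + 1)) k) (E : Finset (κ → k)) (hE : ∀ e ∈ E, ∀ j, e j ∈ S j)
    (L : (κ → k) → Type) [∀ i, Field (L i)] [∀ i, Algebra k (L i)]
    (φ : ∀ i, MvPolynomial (Fin (m + 1)) k →ₐ[k] L i)
    (hφ : ∀ e ∈ E, ∀ j, φ e (u j) = algebraMap k (L e) (e j)) (s δ : ℕ)
    (hS : ∀ j, (S j).card ≤ s) (hu : ∀ j, (u j).totalDegree ≤ δ)
    (q : MvPolynomial (Fin (m + 1)) k) (hq0 : q ≠ 0) (hq : ∀ e ∈ E, φ e q = 0) :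
    E.card ≤ q.totalDegree * (Fintype.card κ * ((s - 1) * δ) + 1) ^ m := by
  have hdual := dualFam_lag S u E hE L φ hφ
  have hdeg : ∀ e ∈ E, (lag S u e).totalDegree ≤ Fintype.card κ * ((s - 1) * δ) :=
    fun e he => totalDegree_lag_le S u e (hE e he) s δ hS hu
  set D := Fintype.card κ * ((s - 1) * δ) with hD
  rcases le_or_gt q.totalDegree D with hle | hgt
  · have h1 := hdual.card_add_le D hdeg q hq0 hq hle
    have h2 := card_monLE_succ_le m D q.totalDegree hle
    omega
  · have h1 := (hdual.card_le D hdeg).trans (card_monLE_le _ _)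
    refine h1.trans ?_
    rw [pow_succ, mul_comm]
    exact Nat.mul_le_mul_right _ (by omega)

end Pool.Agent.H97.PP
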