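import Pool.Agent.H97.PP.Large3

/-!
# The sieve over all primes larger than `M`, in one chart
-/

set_option autoImplicit false

namespace Pool.Agent.H97.PP

open MvPolynomial

section

variable {m d : ℕ}

/-- The primes of moderate size. -/
theorem card_mid_le (m d : ℕ) (hd : 2 ≤ d) : ∃ C1 : ℕ, ∀ M : ℕ, d ≤ M → ∀ (Q : ℤ), Q ≠ 0 →
    (∀ p : ℕ, p.Prime → (p : ℤ) ∣ Q → p ≤ M) → ∀ (s : ℕ) (a B : AMon (m + 1) d → ℤ),
    ∀ E : Finset (AMon (m + 1) d → ℤ),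
    (∀ c ∈ E, c ∈ (Fintype.piFinset fun α => ap (a α) Q (B α) s) ∧
      ∃ p : ℕ, p.Prime ∧ M < p ∧ p ≤ s ∧ BadAt p c) →
    M * E.card ≤ C1 * s ^ Fintype.card (AMon (m + 1) d) := by
  classical
  obtain ⟨C, hC⟩ : ∃ C, C = ((polH (m + 1) d).totalDegree * ((m + 2) * (d + 1)) ^ (m + 1) +
        ((m + 1) * d) * ((m + 2) * (d + 1)) ^ m) := ⟨_, rfl⟩
  obtain ⟨N, hN⟩ : ∃ N, N = Fintype.card (AMon (m + 1) d) := ⟨_, rfl⟩
  refine ⟨C * 2 ^ N, fun M hM Q hQ hQM s a B E hE => ?_⟩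
  rw [← hN]
  have hM0 : M ≠ 0 := by omega
  by_cases hsM : s < M
  · have : E = ∅ := by
      rw [Finset.eq_empty_iff_forall_notMem]
      intro c hc
      obtain ⟨_, p, _, h1, h2, _⟩ := hE c hc
      omega
    rw [this]; simp
  push Not at hsM
  obtain ⟨W, hW⟩ : ∃ W : ℕ → Finset (AMon (m + 1) d → ℤ), ∀ p c, c ∈ W p ↔
      (c ∈ (Fintype.piFinset fun α => ap (a α) Q (B α) s) ∧ BadAt p c) :=
    ⟨_, fun p c => Finset.mem_filter⟩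
  have hWc : ∀ p ∈ Finset.Ioc M s, ((if p.Prime then W p else ∅ : Finset _).card : ℝ) ≤
      (C * 2 ^ N * s ^ N : ℝ) * ((p : ℝ) ^ 2)⁻¹ := by
    intro p hp
    rw [Finset.mem_Ioc] at hp
    by_cases hpp : p.Prime
    · rw [if_pos hpp]
      have h1 := card_badAt_le hd hpp (by omega : d < p) a B Q
        (fun h => by have := hQM p hpp h; omega) s hp.2
      rw [← hC, ← hN] at h1
      have h2 : (W p).card * p ^ 2 ≤ C * (2 * s) ^ N := by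
        refine (Nat.mul_le_mul_right _ (Finset.card_le_card fun c hc => ?_)).trans h1
        exact Finset.mem_filter.mpr ((hW p c).mp hc)
      have h3 : ((W p).card : ℝ) * (p : ℝ) ^ 2 ≤ C * (2 * s) ^ N := by exact_mod_cast h2
      have hp0 : (0 : ℝ) < (p : ℝ) ^ 2 := by
        have := hpp.pos
        positivity
      rw [← div_eq_mul_inv, le_div_iff₀ hp0]
      refine h3.trans (le_of_eq ?_)
      rw [mul_pow]; ring
    · rw [if_neg hpp]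
      simp only [Finset.card_empty, Nat.cast_zero]
      positivity
  have hsub : E ⊆ (Finset.Ioc M s).biUnion fun p => if p.Prime then W p else ∅ := by
    intro c hc
    obtain ⟨hc0, p, hp, h1, h2, hb⟩ := hE c hc
    rw [Finset.mem_biUnion]
    refine ⟨p, Finset.mem_Ioc.mpr ⟨h1, h2⟩, ?_⟩
    rw [if_pos hp]
    exact (hW p c).mpr ⟨hc0, hb⟩
  have h1 : (E.card : ℝ) ≤ ∑ p ∈ Finset.Ioc M s, (C * 2 ^ N * s ^ N : ℝ) * ((p : ℝ) ^ 2)⁻¹ := by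
    have h2 := (Finset.card_le_card hsub).trans Finset.card_biUnion_le
    refine le_trans (by exact_mod_cast h2 : (E.card : ℝ) ≤
      ((∑ p ∈ Finset.Ioc M s, (if p.Prime then W p else ∅ : Finset _).card : ℕ) : ℝ)) ?_
    rw [Nat.cast_sum]
    exact Finset.sum_le_sum hWc
  rw [← Finset.mul_sum] at h1
  have h2 : (∑ p ∈ Finset.Ioc M s, ((p : ℝ) ^ 2)⁻¹) ≤ (M : ℝ)⁻¹ :=
    (sum_Ioc_inv_sq_le_sub hM0 hsM).trans (by
      have : (0 : ℝ) ≤ (s : ℝ)⁻¹ := by positivity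
      linarith)
  have h3 : (E.card : ℝ) ≤ (C * 2 ^ N * s ^ N : ℝ) * (M : ℝ)⁻¹ :=
    h1.trans (mul_le_mul_of_nonneg_left h2 (by positivity))
  have hM1 : (0 : ℝ) < M := by exact_mod_cast Nat.pos_of_ne_zero hM0
  rw [← div_eq_mul_inv, le_div_iff₀ hM1] at h3
  have h4 : E.card * M ≤ C * 2 ^ N * s ^ N := by exact_mod_cast h3
  rw [mul_comm]
  exact h4

end

/-- The sieve in one chart: few polynomials in a box have a degenerate singular zero modulo some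
prime larger than `M`. -/
theorem chart_sieve' (n d : ℕ) (hn : 1 ≤ n) (hd : 2 ≤ d) : ∃ C : ℕ, ∀ M : ℕ, d ≤ M →
    ∀ Q : ℤ, Q ≠ 0 → (∀ p : ℕ, p.Prime → (p : ℤ) ∣ Q → p ≤ M) → ∀ K : ℕ, ∃ s0 : ℕ, ∀ s ≥ s0,
    ∀ a B : AMon n d → ℤ, (∀ α, |a α| ≤ K) → (∀ α, |B α| ≤ K * s) →
    ∀ E : Finset (AMon n d → ℤ),
    (∀ c ∈ E, c ∈ (Fintype.piFinset fun α => ap (a α) Q (B α) s) ∧
      ∃ p : ℕ, p.Prime ∧ M < p ∧ BadAt p c) →
    M * E.card ≤ C * s ^ Fintype.card (AMon n d) := by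
  classical
  obtain ⟨m, rfl⟩ : ∃ m, n = m + 1 := ⟨n - 1, by omega⟩
  obtain ⟨C1, hC1⟩ := card_mid_le m d hd
  obtain ⟨C3, hC3⟩ := card_large_le (m + 1) d hd
  refine ⟨C1 + 1, fun M hM Q hQ hQM K => ?_⟩
  obtain ⟨s0, hs0⟩ := hC3 Q hQ K
  obtain ⟨N, hN⟩ : ∃ N, N = Fintype.card (AMon (m + 1) d) := ⟨_, rfl⟩
  refine ⟨s0 + M * C3 + 1, fun s hs a B ha hB E hE => ?_⟩
  have hs1 : 1 ≤ s := by omega
  have hsM : M * C3 ≤ s := by omega
  obtain ⟨E1, hE1⟩ : ∃ E1 : Finset (AMon (m + 1) d → ℤ), ∀ c, c ∈ E1 ↔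
      (c ∈ E ∧ ∃ p : ℕ, p.Prime ∧ M < p ∧ p ≤ s ∧ BadAt p c) := ⟨_, fun c => Finset.mem_filter⟩
  obtain ⟨E2, hE2⟩ : ∃ E2 : Finset (AMon (m + 1) d → ℤ), ∀ c, c ∈ E2 ↔
      (c ∈ E ∧ ∃ p : ℕ, p.Prime ∧ s < p ∧ ¬ (p : ℤ) ∣ Q ∧ BadAt p c) :=
    ⟨_, fun c => Finset.mem_filter⟩
  have h1 := hC1 M hM Q hQ hQM s a B E1 fun c hc =>
    ⟨(hE c ((hE1 c).mp hc).1).1, ((hE1 c).mp hc).2⟩
  have h2 := hs0 s (by omega) a B ha hB E2 fun c hc =>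
    ⟨(hE c ((hE2 c).mp hc).1).1, ((hE2 c).mp hc).2⟩
  rw [← hN] at h1 h2 ⊢
  have hsub : E ⊆ E1 ∪ E2 := by
    intro c hc
    obtain ⟨_, p, hp, hMp, hb⟩ := hE c hc
    rw [Finset.mem_union, hE1, hE2]
    rcases le_or_gt p s with h | h
    · exact Or.inl ⟨hc, p, hp, hMp, h, hb⟩
    · exact Or.inr ⟨hc, p, hp, h, fun hd => by have := hQM p hp hd; omega, hb⟩
  have h3 := (Finset.card_le_card hsub).trans (Finset.card_union_le _ _)
  have h4 : M * E2.card ≤ s ^ N := by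
    refine Nat.le_of_mul_le_mul_right ?_ hs1
    calc M * E2.card * s = M * (E2.card * s) := by ring
      _ ≤ M * (C3 * s ^ N) := Nat.mul_le_mul_left _ h2
      _ = (M * C3) * s ^ N := by ring
      _ ≤ s * s ^ N := Nat.mul_le_mul_right _ hsM
      _ = s ^ N * s := by ring
  calc M * E.card ≤ M * (E1.card + E2.card) := Nat.mul_le_mul_left _ h3
    _ = M * E1.card + M * E2.card := by ring
    _ ≤ C1 * s ^ N + s ^ N := Nat.add_le_add h1 h4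
    _ = (C1 + 1) * s ^ N := by ring

open Classical in
/-- The sieve in one chart. -/
theorem chart_sieve (n d : ℕ) (hn : 1 ≤ n) (hd : 2 ≤ d) : ∃ C : ℕ, ∀ M : ℕ, d ≤ M →
    ∀ Q : ℤ, Q ≠ 0 → (∀ p : ℕ, p.Prime → (p : ℤ) ∣ Q → p ≤ M) → ∀ K : ℕ, ∃ s0 : ℕ, ∀ s ≥ s0,
    ∀ a A : AMon n d → ℤ, (∀ α, |a α| ≤ K) → (∀ α, |A α| ≤ K * s) →
    M * ((Fintype.piFinset fun α => ap (a α) Q (A α) s).filter fun c =>
      ∃ p : ℕ, p.Prime ∧ M < p ∧ BadAt p c).card ≤ C * s ^ Fintype.card (AMon n d) := by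
  obtain ⟨C, hC⟩ := chart_sieve' n d hn hd
  refine ⟨C, fun M hM Q hQ hQM K => ?_⟩
  obtain ⟨s0, hs0⟩ := hC M hM Q hQ hQM K
  exact ⟨s0, fun s hs a A ha hA => hs0 s hs a A ha hA _ fun c hc => Finset.mem_filter.mp hc⟩

end Pool.Agent.H97.PP
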