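import Pool.Agent.H97.PP.Sieve
import Pool.Agent.H97.PP.Box

/-!
# The sieve in all the charts, and the density in real boxes
-/

set_option autoImplicit false

namespace Pool.Agent.H97.PP

open MvPolynomial

/-- Few coefficient vectors are bad at some prime larger than `M` in some chart. -/
theorem union_sieve (n d : ℕ) (hn : 1 ≤ n) (hd : 2 ≤ d) {B I : Type} [Fintype B] [DecidableEq B]
    [Fintype I] (e : I → (AMon n d ≃ B)) : ∃ C : ℕ, ∀ M : ℕ, d ≤ M →
    ∀ Q : ℤ, Q ≠ 0 → (∀ p : ℕ, p.Prime → (p : ℤ) ∣ Q → p ≤ M) → ∀ K : ℕ, ∃ s0 : ℕ, ∀ s ≥ s0,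
    ∀ a A : B → ℤ, (∀ β, |a β| ≤ K) → (∀ β, |A β| ≤ K * s) →
    ∀ E : Finset (B → ℤ),
    (∀ c ∈ E, c ∈ (Fintype.piFinset fun β => ap (a β) Q (A β) s) ∧
      ∃ i, ∃ p : ℕ, p.Prime ∧ M < p ∧ BadAt p (fun α => c (e i α))) →
    M * E.card ≤ C * s ^ Fintype.card B := by
  classical
  obtain ⟨C, hC⟩ := chart_sieve' n d hn hd
  refine ⟨Fintype.card I * C, fun M hM Q hQ hQM K => ?_⟩
  obtain ⟨s0, hs0⟩ := hC M hM Q hQ hQM K
  refine ⟨s0, fun s hs a A ha hA E hE => ?_⟩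
  obtain ⟨W, hW⟩ : ∃ W : I → Finset (B → ℤ), ∀ i c, c ∈ W i ↔
      (c ∈ E ∧ ∃ p : ℕ, p.Prime ∧ M < p ∧ BadAt p (fun α => c (e i α))) :=
    ⟨_, fun i c => Finset.mem_filter⟩
  have hWi : ∀ i, M * (W i).card ≤ C * s ^ Fintype.card B := by
    intro i
    have hinj : Function.Injective (fun (c : B → ℤ) (α : AMon n d) => c (e i α)) := by
      intro c c' h
      funext β
      have := congrFun h ((e i).symm β)
      simpa using this
    have h1 := hs0 s hs (fun α => a (e i α)) (fun α => A (e i α)) (fun α => ha _)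
      (fun α => hA _) ((W i).image fun (c : B → ℤ) (α : AMon n d) => c (e i α)) (by
        intro c' hc'
        rw [Finset.mem_image] at hc'
        obtain ⟨c, hc, rfl⟩ := hc'
        obtain ⟨hcE, hb⟩ := (hW i c).mp hc
        refine ⟨?_, hb⟩
        rw [Fintype.mem_piFinset]
        intro α
        exact Fintype.mem_piFinset.mp (hE c hcE).1 (e i α))
    rwa [Finset.card_image_of_injective _ hinj, Fintype.card_congr (e i)] at h1
  have hsub : E ⊆ (Finset.univ : Finset I).biUnion W := by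
    intro c hc
    obtain ⟨_, i, hb⟩ := hE c hc
    rw [Finset.mem_biUnion]
    exact ⟨i, Finset.mem_univ i, (hW i c).mpr ⟨hc, hb⟩⟩
  calc M * E.card ≤ M * ∑ i, (W i).card :=
        Nat.mul_le_mul_left _ ((Finset.card_le_card hsub).trans Finset.card_biUnion_le)
    _ = ∑ i, M * (W i).card := by rw [Finset.mul_sum]
    _ ≤ ∑ _i : I, C * s ^ Fintype.card B := Finset.sum_le_sum fun i _ => hWi i
    _ = Fintype.card I * C * s ^ Fintype.card B := by
        rw [Finset.sum_const, Finset.card_univ, smul_eq_mul]; ring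

/-- At least half of the points of the boxes are good at all the primes larger than `M`. -/
theorem half_good (n d : ℕ) (hn : 1 ≤ n) (hd : 2 ≤ d) {B I : Type} [Fintype B] [DecidableEq B]
    [Fintype I] (e : I → (AMon n d ≃ B)) : ∃ M : ℕ, d ≤ M ∧
    ∀ Q : ℤ, Q ≠ 0 → (∀ p : ℕ, p.Prime → (p : ℤ) ∣ Q → p ≤ M) → ∀ c0 : B → ℤ, ∀ K : ℕ,
    ∃ s0 : ℕ, ∀ s ≥ s0, ∀ A : B → ℤ, (∀ β, |A β| ≤ K * s) →
    ∃ E : Finset (B → ℤ), (∀ c ∈ E, c ∈ (Fintype.piFinset fun β => ap (c0 β) Q (A β) s) ∧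
      ∀ i, ∀ p : ℕ, p.Prime → M < p → ¬ BadAt p (fun α => c (e i α))) ∧
      s ^ Fintype.card B ≤ 2 * E.card := by
  classical
  obtain ⟨C, hC⟩ := union_sieve n d hn hd e
  refine ⟨max d (2 * C), le_max_left _ _, fun Q hQ hQM c0 K => ?_⟩
  obtain ⟨K', hK'⟩ : ∃ K' : ℕ, K' = K + ∑ β, (c0 β).natAbs := ⟨_, rfl⟩
  obtain ⟨s0, hs0⟩ := hC (max d (2 * C)) (le_max_left _ _) Q hQ hQM K'
  refine ⟨s0, fun s hs A hA => ?_⟩
  have hc0 : ∀ β, |c0 β| ≤ K' := by
    intro β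
    have : (c0 β).natAbs ≤ ∑ β, (c0 β).natAbs :=
      Finset.single_le_sum (f := fun β => (c0 β).natAbs) (fun β _ => Nat.zero_le _)
        (Finset.mem_univ β)
    rw [Int.abs_eq_natAbs]
    exact_mod_cast (by omega : (c0 β).natAbs ≤ K')
  have hA' : ∀ β, |A β| ≤ K' * s := by
    intro β
    refine (hA β).trans ?_
    have : (K : ℤ) ≤ K' := by exact_mod_cast (by omega : K ≤ K')
    exact mul_le_mul_of_nonneg_right this (by positivity)
  obtain ⟨Y, hY⟩ : ∃ Y : Finset (B → ℤ), Y = Fintype.piFinset fun β => ap (c0 β) Q (A β) s :=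
    ⟨_, rfl⟩
  obtain ⟨E, hE⟩ : ∃ E : Finset (B → ℤ), ∀ c, c ∈ E ↔ (c ∈ Y ∧
      ∃ i, ∃ p : ℕ, p.Prime ∧ max d (2 * C) < p ∧ BadAt p (fun α => c (e i α))) :=
    ⟨_, fun c => Finset.mem_filter⟩
  have h1 := hs0 s hs c0 A hc0 hA' E fun c hc => by rw [← hY]; exact (hE c).mp hc
  have hsub : E ⊆ Y := fun c hc => ((hE c).mp hc).1
  have hYc : Y.card = s ^ Fintype.card B := by
    rw [hY, Fintype.card_piFinset]
    simp only [card_ap _ _ _ hQ, Finset.prod_const, Finset.card_univ]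
  refine ⟨Y \ E, fun c hc => ?_, ?_⟩
  · rw [Finset.mem_sdiff] at hc
    rw [← hY]
    refine ⟨hc.1, fun i p hp hM hb => hc.2 ?_⟩
    exact (hE c).mpr ⟨hc.1, i, p, hp, hM, hb⟩
  · rw [Finset.card_sdiff_of_subset hsub, hYc]
    have hEle : E.card ≤ s ^ Fintype.card B := by
      rw [← hYc]; exact Finset.card_le_card hsub
    have h2 : 2 * E.card ≤ s ^ Fintype.card B := by
      rcases Nat.eq_zero_or_pos C with h0 | h0
      · rw [h0, zero_mul] at h1
        have h3 : 0 < max d (2 * 0) := lt_of_lt_of_le (by omega : 0 < d) (le_max_left _ _)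
        have h4 : E.card = 0 := by
          by_contra h5
          have := Nat.mul_pos h3 (Nat.pos_of_ne_zero h5)
          omega
        rw [h4]; simp
      · refine Nat.le_of_mul_le_mul_left ?_ h0
        calc C * (2 * E.card) = (2 * C) * E.card := by ring
          _ ≤ max d (2 * C) * E.card := Nat.mul_le_mul_right _ (le_max_right _ _)
          _ ≤ C * s ^ Fintype.card B := h1
    omega

/-- **The density statement.** There is `M ≥ d` such that, for every `Q > 0` all of whose prime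
factors are at most `M` and every `c₀`, in all large dilates of every real box, the vectors
`c ≡ c₀ mod Q` which are good at all the primes larger than `M`, in all the charts, make up at
least the proportion `(1/2) (2 Q) ^ (-N)` of the volume. -/
theorem density (n d : ℕ) (hn : 1 ≤ n) (hd : 2 ≤ d) {B I : Type} [Fintype B] [DecidableEq B]
    [Fintype I] (e : I → (AMon n d ≃ B)) : ∃ M : ℕ, d ≤ M ∧
    ∀ Q : ℤ, 0 < Q → (∀ p : ℕ, p.Prime → (p : ℤ) ∣ Q → p ≤ M) → ∀ (c0 : B → ℤ) (lo hi : B → ℝ),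
    (∀ β, lo β < hi β) → ∃ H0 : ℝ, ∀ H : ℝ, H0 ≤ H →
      (1 / 2 : ℝ) * (1 / (2 * Q)) ^ Fintype.card B * ∏ β, (H * (hi β - lo β)) ≤
        Nat.card {c : B → ℤ // (∀ β, H * lo β ≤ c β ∧ (c β : ℝ) ≤ H * hi β) ∧
          (∃ z : B → ℤ, ∀ β, c β = c0 β + Q * z β) ∧
          ∀ i, ∀ p : ℕ, p.Prime → M < p → ¬ BadAt p (fun α => c (e i α))} := by
  obtain ⟨M, hM, h⟩ := half_good n d hn hd e
  refine ⟨M, hM, fun Q hQ hQM c0 lo hi hlh => ?_⟩
  refine box_density (fun c => (∃ z : B → ℤ, ∀ β, c β = c0 β + Q * z β) ∧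
    ∀ i, ∀ p : ℕ, p.Prime → M < p → ¬ BadAt p (fun α => c (e i α))) Q hQ c0 ?_ lo hi hlh
  intro K
  obtain ⟨s0, hs0⟩ := h Q hQ.ne' hQM c0 K
  refine ⟨s0, fun s hs A hA => ?_⟩
  obtain ⟨E, hE1, hE2⟩ := hs0 s hs A hA
  refine ⟨E, fun c hc => ⟨(hE1 c hc).1, ?_, (hE1 c hc).2⟩, hE2⟩
  have h1 := Fintype.mem_piFinset.mp (hE1 c hc).1
  choose z _ _ hz using fun β => mem_ap.mp (h1 β)
  exact ⟨z, fun β => (hz β).symm⟩

end Pool.Agent.H97.PP
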